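import Mathlib

/-!
Homomorphisms from a finite abelian group to a cyclic group that map given elements of large order to
short nonzero elements (pigeonhole principle in the dual group).
-/

set_option autoImplicit false

namespace Pool.Agent.J4H91.AC

/-- Homomorphisms to a finite cyclic group separate the elements. -/
lemma separate (Γ : Type) [AddCommGroup Γ] [Finite Γ] :
    ∃ N : ℕ, 0 < N ∧ ∀ x : Γ, x ≠ 0 → ∃ π : Γ →+ ZMod N, π x ≠ 0 := by
  classical
  have hn : NeZero (Monoid.exponent (Multiplicative Γ)) := ⟨Monoid.exponent_ne_zero_of_finite⟩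
  have hcyc : IsCyclic (rootsOfUnity (Monoid.exponent (Multiplicative Γ)) ℂ) := inferInstance
  refine ⟨Nat.card (rootsOfUnity (Monoid.exponent (Multiplicative Γ)) ℂ), Nat.card_pos, fun x hx => ?_⟩
  obtain ⟨φ, hφ⟩ := CommGroup.exists_apply_ne_one_of_hasEnoughRootsOfUnity (Multiplicative Γ) ℂ
    (a := Multiplicative.ofAdd x) (fun h => hx (by simpa using h))
  let φ' : Multiplicative Γ →* rootsOfUnity (Monoid.exponent (Multiplicative Γ)) ℂ :=
    φ.codRestrict _ (fun g => by
      rw [mem_rootsOfUnity, ← map_pow, Monoid.pow_exponent_eq_one, map_one])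
  let ψ := (zmodCyclicMulEquiv hcyc).symm.toMonoidHom.comp φ'
  refine ⟨AddMonoidHom.toMultiplicative.symm ψ, fun h => hφ ?_⟩
  have h1 : ψ (Multiplicative.ofAdd x) = 1 := h
  have h2 : φ' (Multiplicative.ofAdd x) = 1 := by
    exact (MulEquiv.map_eq_one_iff (zmodCyclicMulEquiv hcyc).symm).1 h1
  exact congrArg Subtype.val h2

/-- The homomorphisms that vanish at an element of order `r` form a subgroup of index at least
`r`. -/
lemma card_ker_mul_le {Γ : Type} [AddCommGroup Γ] [Finite Γ] (N : ℕ) (hN : 0 < N)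
    (hsep : ∀ x : Γ, x ≠ 0 → ∃ π : Γ →+ ZMod N, π x ≠ 0) (s : Γ) :
    Nat.card {π : Γ →+ ZMod N // π s = 0} * addOrderOf s ≤ Nat.card (Γ →+ ZMod N) := by
  classical
  have : NeZero N := ⟨hN.ne'⟩
  have : Finite (Γ →+ ZMod N) :=
    Finite.of_injective (fun π : Γ →+ ZMod N => (π : Γ → ZMod N)) DFunLike.coe_injective
  let ev : (Γ →+ ZMod N) →+ ZMod N := AddMonoidHom.eval s
  have hker : Nat.card {π : Γ →+ ZMod N // π s = 0} = Nat.card ev.ker :=
    Nat.card_congr (Equiv.subtypeEquivRight (fun π => by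
      rw [AddMonoidHom.mem_ker]
      exact Iff.rfl))
  have hcard : Nat.card (Γ →+ ZMod N) = Nat.card ev.range * Nat.card ev.ker := by
    rw [AddSubgroup.card_eq_card_quotient_mul_card_addSubgroup ev.ker,
      Nat.card_congr (QuotientAddGroup.quotientKerEquivRange ev).toEquiv]
  have hr : addOrderOf s ∣ Nat.card ev.range := by
    rw [addOrderOf_dvd_iff_nsmul_eq_zero]
    by_contra hne
    obtain ⟨π, hπ⟩ := hsep _ hne
    apply hπ
    rw [map_nsmul]
    have h1 : (Nat.card ev.range) • (⟨ev π, ⟨π, rfl⟩⟩ : ev.range) = 0 := card_nsmul_eq_zero'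
    have h2 := congrArg Subtype.val h1
    simpa [ev] using h2
  have hpos : 0 < Nat.card ev.range := Nat.card_pos
  rw [hker, hcard, mul_comm]
  exact Nat.mul_le_mul_right _ (Nat.le_of_dvd hpos hr)

lemma box_lt (Q N a b : ℕ) (hN : 0 < N) (h : Q * a / N = Q * b / N) (_ : a ≤ b) :
    Q * (b - a) < N := by
  have h1 := Nat.div_add_mod (Q * a) N
  have h2 := Nat.div_add_mod (Q * b) N
  have h3 := Nat.mod_lt (Q * b) hN
  rw [h] at h1
  rw [Nat.mul_sub]
  omega

/-- Pigeonhole principle: short nonzero values at the elements of `L`, short values on `S`. -/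
theorem exists_short {Γ : Type} [AddCommGroup Γ] [Finite Γ] (m Q : ℕ) (hQ : 0 < Q) (S L : Finset Γ)
    (hLS : L ⊆ S) (hSm : S.card ≤ m) (hL : ∀ s ∈ L, m * Q ^ m < addOrderOf s) :
    ∃ (N : ℕ) (_ : NeZero N) (π : Γ →+ ZMod N), (∀ s ∈ L, (π s).val ≠ 0) ∧
      ∀ s ∈ S, (π s).val = 0 ∨ (Q * (π s).val < N ∨ Q * (N - (π s).val) < N) := by
  classical
  obtain ⟨N, hN, hsep⟩ := separate Γ
  have hN' : NeZero N := ⟨hN.ne'⟩
  refine ⟨N, hN', ?_⟩
  have : Finite (Γ →+ ZMod N) :=
    Finite.of_injective (fun π : Γ →+ ZMod N => (π : Γ → ZMod N)) DFunLike.coe_injective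
  have _ : Fintype (Γ →+ ZMod N) := Fintype.ofFinite _
  let f : (Γ →+ ZMod N) → (S → Fin Q) := fun π s => ⟨Q * (π s.1).val / N, by
    rw [Nat.div_lt_iff_lt_mul hN]
    exact Nat.mul_lt_mul_of_pos_left (ZMod.val_lt _) hQ⟩
  have hne : Nonempty (S → Fin Q) := ⟨fun _ => ⟨0, hQ⟩⟩
  have hcard : Fintype.card (S → Fin Q) ≤ Q ^ m := by
    rw [Fintype.card_fun, Fintype.card_fin, Fintype.card_coe]
    exact Nat.pow_le_pow_right hQ hSm
  obtain ⟨y, hy⟩ : ∃ y, Fintype.card (Γ →+ ZMod N) ≤
      Q ^ m * (Finset.univ.filter (fun π => f π = y)).card := by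
    by_contra hcon
    push Not at hcon
    have h1 : Fintype.card (Γ →+ ZMod N) = ∑ y, (Finset.univ.filter (fun π => f π = y)).card := by
      rw [← Finset.card_univ]
      exact Finset.card_eq_sum_card_fiberwise (fun x _ => Finset.mem_coe.2 (Finset.mem_univ _))
    have h2 : Q ^ m * Fintype.card (Γ →+ ZMod N) <
        Fintype.card (S → Fin Q) * Fintype.card (Γ →+ ZMod N) := by
      conv_lhs => rw [h1, Finset.mul_sum]
      calc ∑ y, Q ^ m * (Finset.univ.filter (fun π => f π = y)).card
          < ∑ _y : (S → Fin Q), Fintype.card (Γ →+ ZMod N) :=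
            Finset.sum_lt_sum_of_nonempty Finset.univ_nonempty (fun y _ => hcon y)
        _ = _ := by rw [Finset.sum_const, Finset.card_univ, smul_eq_mul]
    exact absurd (lt_of_lt_of_le h2 (Nat.mul_le_mul_right _ hcard)) (lt_irrefl _)
  set Fb := Finset.univ.filter (fun π => f π = y) with hFb
  have hKpos : 0 < Fintype.card (Γ →+ ZMod N) := Fintype.card_pos
  have hFpos : 0 < Fb.card := by
    rcases Nat.eq_zero_or_pos Fb.card with h | h
    · rw [h] at hy; omega
    · exact h
  obtain ⟨π0, hπ0⟩ := Finset.card_pos.1 hFpos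
  have hex : ∃ π ∈ Fb, ∀ s ∈ L, (π - π0) s ≠ 0 := by
    by_contra hcon
    push Not at hcon
    have hsub : Fb ⊆ L.biUnion (fun s => Finset.univ.filter (fun π : Γ →+ ZMod N => (π - π0) s = 0)) := by
      intro π hπ
      obtain ⟨s, hs, hs'⟩ := hcon π hπ
      rw [Finset.mem_biUnion]
      exact ⟨s, hs, by rw [Finset.mem_filter]; exact ⟨Finset.mem_univ _, hs'⟩⟩
    have hle : Fb.card ≤ ∑ s ∈ L, (Finset.univ.filter (fun π : Γ →+ ZMod N => (π - π0) s = 0)).card :=
      le_trans (Finset.card_le_card hsub) Finset.card_biUnion_le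
    have hker : ∀ s ∈ L, (Finset.univ.filter (fun π : Γ →+ ZMod N => (π - π0) s = 0)).card *
        (m * Q ^ m + 1) ≤ Fintype.card (Γ →+ ZMod N) := by
      intro s hs
      have h1 : (Finset.univ.filter (fun π : Γ →+ ZMod N => (π - π0) s = 0)).card =
          Nat.card {π : Γ →+ ZMod N // π s = 0} := by
        rw [Nat.card_eq_fintype_card, Fintype.card_subtype]
        refine Finset.card_bij (fun π _ => π - π0) ?_ ?_ ?_
        · intro π hπ
          rw [Finset.mem_filter] at hπ ⊢
          exact ⟨Finset.mem_univ _, hπ.2⟩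
        · intro a _ b _ hab
          exact sub_left_injective hab
        · intro b hb
          rw [Finset.mem_filter] at hb
          refine ⟨b + π0, ?_, by simp⟩
          rw [Finset.mem_filter]
          exact ⟨Finset.mem_univ _, by simpa using hb.2⟩
      rw [h1]
      refine le_trans (Nat.mul_le_mul_left _ (hL s hs)) ?_
      rw [← Nat.card_eq_fintype_card]
      exact card_ker_mul_le N hN hsep s
    have hsum : (∑ s ∈ L, (Finset.univ.filter (fun π : Γ →+ ZMod N => (π - π0) s = 0)).card) *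
        (m * Q ^ m + 1) ≤ m * Fintype.card (Γ →+ ZMod N) := by
      rw [Finset.sum_mul]
      calc _ ≤ ∑ s ∈ L, Fintype.card (Γ →+ ZMod N) := Finset.sum_le_sum hker
        _ = L.card * Fintype.card (Γ →+ ZMod N) := by rw [Finset.sum_const, smul_eq_mul]
        _ ≤ _ := Nat.mul_le_mul_right _ (le_trans (Finset.card_le_card hLS) hSm)
    have h1 : Fb.card * (m * Q ^ m + 1) ≤ m * (Q ^ m * Fb.card) :=
      le_trans (Nat.mul_le_mul_right _ hle) (le_trans hsum (Nat.mul_le_mul_left _ hy))
    have h2 : Fb.card * (m * Q ^ m + 1) = m * (Q ^ m * Fb.card) + Fb.card := by ring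
    omega
  obtain ⟨π, hπ, hne⟩ := hex
  refine ⟨π - π0, fun s hs h => hne s hs (by rwa [ZMod.val_eq_zero] at h), fun s hs => ?_⟩
  by_cases h6 : ((π - π0) s).val = 0
  · exact Or.inl h6
  right
  have h1 := (Finset.mem_filter.1 hπ).2
  have h2 := (Finset.mem_filter.1 hπ0).2
  have h3 : Q * (π s).val / N = Q * (π0 s).val / N := by
    have := congrFun (h1.trans h2.symm) ⟨s, hs⟩
    exact congrArg Fin.val this
  have h4 : (π - π0) s = π s - π0 s := rfl
  rw [h4] at h6
  have hlt1 := ZMod.val_lt (π s)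
  have hlt2 := ZMod.val_lt (π0 s)
  rcases Nat.le_total (π0 s).val (π s).val with h | h
  · left
    rw [h4, ZMod.val_sub h]
    exact box_lt Q N _ _ hN h3.symm h
  · right
    have h5 := box_lt Q N _ _ hN h3 h
    have h7 : π s - π0 s = ((N + (π s).val - (π0 s).val : ℕ) : ZMod N) := by
      rw [Nat.cast_sub (by omega), Nat.cast_add, ZMod.natCast_self, ZMod.natCast_zmod_val,
        ZMod.natCast_zmod_val, zero_add]
    have h8 : (π s).val ≠ (π0 s).val := by
      intro e
      apply h6
      have := ZMod.val_injective N e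
      rw [this, sub_self, ZMod.val_zero]
    have h9 : (π s - π0 s).val = N + (π s).val - (π0 s).val := by
      rw [h7, ZMod.val_natCast_of_lt (by omega)]
    rw [h4, h9]
    have : N - (N + (π s).val - (π0 s).val) = (π0 s).val - (π s).val := by omega
    rw [this]
    exact h5

/-- Elements of order at most `Q` have no short nonzero values. -/
lemma short_of_small_order {Γ : Type} [AddCommGroup Γ] {N Q : ℕ} [NeZero N] (π : Γ →+ ZMod N) (s : Γ)
    (hpos : 0 < addOrderOf s) (hord : addOrderOf s ≤ Q)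
    (h : (π s).val = 0 ∨ (Q * (π s).val < N ∨ Q * (N - (π s).val) < N)) : π s = 0 := by
  by_contra hne
  have hv : (π s).val ≠ 0 := fun e => hne ((ZMod.val_eq_zero _).1 e)
  have hlt := ZMod.val_lt (π s)
  have h0 : addOrderOf s • π s = 0 := by
    rw [← map_nsmul, addOrderOf_nsmul_eq_zero, map_zero]
  have hdvd : N ∣ addOrderOf s * (π s).val := by
    rw [← ZMod.natCast_eq_zero_iff, Nat.cast_mul, ZMod.natCast_zmod_val, ← nsmul_eq_mul]
    exact h0
  have hdvd' : N ∣ addOrderOf s * (N - (π s).val) := by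
    rw [Nat.mul_sub]
    exact Nat.dvd_sub (Dvd.intro_left _ rfl) hdvd
  rcases h with h | h | h
  · exact hv h
  · have h1 := Nat.le_of_dvd (Nat.mul_pos hpos (by omega)) hdvd
    have h2 : addOrderOf s * (π s).val ≤ Q * (π s).val := Nat.mul_le_mul_right _ hord
    omega
  · have h1 := Nat.le_of_dvd (Nat.mul_pos hpos (by omega)) hdvd'
    have h2 : addOrderOf s * (N - (π s).val) ≤ Q * (N - (π s).val) := Nat.mul_le_mul_right _ hord
    omega

/-- The scales. -/
def scale (m : ℕ) : ℕ → ℕ
  | 0 => 3 * m + 1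
  | i + 1 => max (scale m i) (m * scale m i ^ m)

lemma scale_mono (m : ℕ) : Monotone (scale m) :=
  monotone_nat_of_le_succ (fun _ => le_max_left _ _)

lemma scale_ge (m i : ℕ) : 3 * m + 1 ≤ scale m i := scale_mono m (Nat.zero_le i)

/-- A scale without orders. -/
lemma exists_scale {Γ : Type} [AddCommGroup Γ] (m : ℕ) (S : Finset Γ) (hS : S.card ≤ m) :
    ∃ i ≤ m, ∀ s ∈ S, addOrderOf s ≤ scale m i ∨ scale m (i + 1) < addOrderOf s := by
  classical
  by_contra hcon
  push Not at hcon
  have h : ∀ i : Fin (m + 1), ∃ s : S, scale m i.val < addOrderOf s.1 ∧ addOrderOf s.1 ≤ scale m (i.val + 1) := by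
    intro i
    obtain ⟨s, hs, h1, h2⟩ := hcon i.val (by omega)
    exact ⟨⟨s, hs⟩, h1, h2⟩
  choose f hf1 hf2 using h
  have hinj : Function.Injective f := by
    intro i j hij
    by_contra hne
    rcases lt_or_gt_of_ne hne with h | h
    · have h1 := hf2 i
      have h2 := hf1 j
      rw [← hij] at h2
      have h3 := scale_mono m (show i.val + 1 ≤ j.val from h)
      omega
    · have h1 := hf2 j
      have h2 := hf1 i
      rw [hij] at h2
      have h3 := scale_mono m (show j.val + 1 ≤ i.val from h)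
      omega
  have := Fintype.card_le_of_injective f hinj
  rw [Fintype.card_fin, Fintype.card_coe] at this
  omega

end Pool.Agent.J4H91.AC
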