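import Pool.Agent.J4H91.AC.Criterion
import Pool.Agent.J4H91.AC.Dual

/-!
Circulant graphs with short jumps, and Cayley graphs of finite abelian groups with jumps of large order.
-/

set_option autoImplicit false

namespace Pool.Agent.J4H91.AC

open SimpleGraph

lemma cast_short {n N : ℕ} (D : Finset ℕ) (hN : N ∈ D) (hD : ∀ d ∈ D, 1 ≤ d ∧ d ≤ N)
    (hn : (D.card + 1) * N ≤ n) : N < n ∧ ∀ d ∈ D, ((d : ZMod n)).val = d := by
  have h1 := (hD N hN).1
  have hc : 1 ≤ D.card := Finset.card_pos.2 ⟨N, hN⟩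
  have h2 : 2 * N ≤ (D.card + 1) * N := Nat.mul_le_mul_right _ (by omega)
  have h3 : N < n := by omega
  exact ⟨h3, fun d hd => ZMod.val_natCast_of_lt (lt_of_le_of_lt (hD d hd).2 h3)⟩

theorem circ_main (n : ℕ) (D : Finset ℕ) (N : ℕ) (hN : N ∈ D) (hD : ∀ d ∈ D, 1 ≤ d ∧ d ≤ N)
    (hn : (D.card + 1) * N ≤ n) :
    (circulantGraph ((fun d : ℕ => (d : ZMod n)) '' (D : Set ℕ))).Colorable (D.card + 2) ∧
      HasCliqueMinor (circulantGraph ((fun d : ℕ => (d : ZMod n)) '' (D : Set ℕ))) (D.card + 1) := by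
  classical
  obtain ⟨hNn, hval⟩ := cast_short D hN hD hn
  have hne : NeZero n := ⟨by omega⟩
  let D' : Finset (ZMod n) := D.image (fun d : ℕ => (d : ZMod n))
  have hD'c : D'.card = D.card := by
    refine Finset.card_image_of_injOn ?_
    intro a ha b hb hab
    have := congrArg ZMod.val hab
    simp only at this
    rwa [hval a ha, hval b hb] at this
  have hset : ((fun d : ℕ => (d : ZMod n)) '' (D : Set ℕ)) = (D' : Set (ZMod n)) ∪ ((∅ : Finset (ZMod n)) : Set _) := by
    rw [Finset.coe_image, Finset.coe_empty, Set.union_empty]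
  have hD' : ∀ d ∈ D', 1 ≤ (AddMonoidHom.id (ZMod n) d).val ∧ (AddMonoidHom.id (ZMod n) d).val ≤ N := by
    intro d hd
    obtain ⟨e, he, rfl⟩ := Finset.mem_image.1 hd
    rw [AddMonoidHom.id_apply, hval e he]
    exact hD e he
  have hq : (D'.card + (∅ : Finset (ZMod n)).card + 1) * N ≤ n := by
    rw [hD'c, Finset.card_empty]
    exact hn
  have h1 := criterion_colorable n N (AddMonoidHom.id (ZMod n)) D' ∅ hD' (by simp) hq
  have h2 := criterion_minor n (AddMonoidHom.id (ZMod n)) D' ∅ (N : ZMod n)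
    (Finset.mem_image.2 ⟨N, hN, rfl⟩) (by
      intro d hd
      rw [AddMonoidHom.id_apply (x := (N : ZMod n)), hval N hN]
      exact hD' d hd) (by simp) (by simp) (by simp) (by
      rw [AddMonoidHom.id_apply, hval N hN]
      exact hq)
  rw [hset]
  rw [hD'c, Finset.card_empty] at h1 h2
  exact ⟨h1, h2⟩

lemma int_eq_of_cast {n : ℕ} (x y : ℤ) (h : (x : ZMod n) = (y : ZMod n)) (h1 : x - y < n)
    (h2 : y - x < n) : x = y := by
  rw [ZMod.intCast_eq_intCast_iff_dvd_sub] at h
  obtain ⟨c, hc⟩ := h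
  have hc0 : c = 0 := by
    by_contra hne
    rcases lt_or_gt_of_ne hne with h | h
    · have : (n : ℤ) * c ≤ n * (-1) := mul_le_mul_of_nonneg_left (by omega) (by omega)
      omega
    · have : (n : ℤ) * 1 ≤ n * c := mul_le_mul_of_nonneg_left (by omega) (by omega)
      omega
  rw [hc0] at hc
  omega

theorem circ_asym (n : ℕ) (D : Finset ℕ) (N : ℕ) (hN : N ∈ D) (hD : ∀ d ∈ D, 1 ≤ d ∧ d ≤ N)
    (hn : (D.card + 2) * N ≤ n) (d : ℕ) (hd : d ∈ D) (hdN : d ≠ N) (hd' : N - d ∉ D) :
    HasCliqueMinor (circulantGraph ((fun d : ℕ => (d : ZMod n)) '' (D : Set ℕ))) (D.card + 2) := by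
  classical
  set G := circulantGraph ((fun d : ℕ => (d : ZMod n)) '' (D : Set ℕ)) with hG
  have hN1 := (hD N hN).1
  have hc : 1 ≤ D.card := Finset.card_pos.2 ⟨N, hN⟩
  set m := D.card with hm
  have hadj : ∀ (x : ZMod n) (e : ℕ), e ∈ D → G.Adj x (x + (e : ZMod n)) := by
    intro x e he
    rw [hG, circulantGraph_adj]
    have h1 := hD e he
    have h2 : m * N + 2 * N ≤ n := by
      have : (m + 2) * N = m * N + 2 * N := by ring
      omega
    refine ⟨fun h => ?_, Or.inr ?_⟩
    · have h3 : ((e : ℤ) : ZMod n) = ((0 : ℤ) : ZMod n) := by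
        push_cast
        have : x + (e : ZMod n) = x + 0 := by rw [add_zero]; exact h.symm
        exact add_left_cancel this
      have := int_eq_of_cast _ _ h3 (by omega) (by omega)
      omega
    · rw [add_sub_cancel_left]
      exact ⟨e, he, rfl⟩
  have hadj' : ∀ (x : ZMod n) (e : ℕ), e ∈ D → G.Adj x (x + -(e : ZMod n)) := by
    intro x e he
    have := (hadj (x + -(e : ZMod n)) e he).symm
    rwa [neg_add_cancel_right] at this
  let E : Finset ℤ := insert (-(d : ℤ)) ((D.erase N).image (fun e : ℕ => (e : ℤ)))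
  have hEc : E.card = m := by
    rw [Finset.card_insert_of_notMem, Finset.card_image_of_injective _ Nat.cast_injective,
      Finset.card_erase_of_mem hN]
    · omega
    · rw [Finset.mem_image]
      rintro ⟨e, _, he⟩
      have := (hD d hd).1
      omega
  have hEmem : ∀ w ∈ E, w = -(d : ℤ) ∨ ∃ e ∈ D, e ≠ N ∧ w = (e : ℤ) := by
    intro w hw
    rw [Finset.mem_insert, Finset.mem_image] at hw
    rcases hw with h | ⟨e, he, rfl⟩
    · exact Or.inl h
    · exact Or.inr ⟨e, Finset.mem_of_mem_erase he, Finset.ne_of_mem_erase he, rfl⟩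
  have hd1 := hD d hd
  have hErange : ∀ w ∈ E, -(N : ℤ) < w ∧ w < N ∧ w ≠ 0 := by
    intro w hw
    rcases hEmem w hw with rfl | ⟨e, he, heN, rfl⟩
    · omega
    · have := hD e he
      omega
  let W : Fin m → ℤ := fun i => (E.equivFin.symm (Fin.cast hEc.symm i)).1
  have hWE : ∀ i, W i ∈ E := fun i => (E.equivFin.symm (Fin.cast hEc.symm i)).2
  have hWinj : Function.Injective W := by
    intro i j hij
    have h1 := E.equivFin.symm.injective (Subtype.ext hij)
    exact Fin.cast_injective _ h1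
  -- multiples of `N` between the leaves
  have hmulN : ∀ (c : ℤ), -(N : ℤ) < c * N → c * N < N → c = 0 := by
    intro c h1 h2
    by_contra hne
    rcases lt_or_gt_of_ne hne with h | h
    · have : c * N ≤ (-1) * N := mul_le_mul_of_nonneg_right (by omega) (by omega)
      omega
    · have : 1 * (N : ℤ) ≤ c * N := mul_le_mul_of_nonneg_right (by omega) (by omega)
      omega
  have hmul2 : ∀ (c : ℤ), 0 < c * N → c * N < 2 * N → c = 1 := by
    intro c h1 h2
    by_contra hne
    rcases lt_or_gt_of_ne hne with h | h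
    · have : c * N ≤ 0 * N := mul_le_mul_of_nonneg_right (by omega) (by omega)
      omega
    · have : 2 * (N : ℤ) ≤ c * N := mul_le_mul_of_nonneg_right (by omega) (by omega)
      omega
  have haN : ∀ a : ℕ, a ≤ m → (a : ℤ) * N ≤ (m : ℤ) * N := by
    intro a ha
    exact mul_le_mul_of_nonneg_right (by omega) (by omega)
  have haN0 : ∀ a : ℕ, (0 : ℤ) ≤ (a : ℤ) * N := by
    intro a
    exact mul_nonneg (by omega) (by omega)
  have hnZ : (m : ℤ) * N + 2 * N ≤ n := by
    have h1 : ((m + 2 : ℕ) : ℤ) * N ≤ n := by exact_mod_cast hn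
    have h2 : ((m + 2 : ℕ) : ℤ) * N = (m : ℤ) * N + 2 * N := by push_cast; ring
    omega
  have hcast : ∀ (w : ℤ) (a : ℕ), (w : ZMod n) + a • (N : ZMod n) = ((w + a * N : ℤ) : ZMod n) := by
    intro w a
    push_cast
    rw [nsmul_eq_mul]
  have hcast0 : ∀ (a : ℕ), a • (N : ZMod n) = (((a : ℤ) * N : ℤ) : ZMod n) := by
    intro a
    push_cast
    rw [nsmul_eq_mul]
  refine minor_of_leaves G (N : ZMod n) m m (fun i => (W i : ZMod n)) (fun x => hadj x N hN) ?_ hc le_rfl
    ?_ ?_ ?_
  · intro x i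
    rcases hEmem _ (hWE i) with h | ⟨e, he, _, h⟩
    · show G.Adj x (x + (W i : ZMod n))
      rw [h]
      push_cast
      exact hadj' x d hd
    · show G.Adj x (x + (W i : ZMod n))
      rw [h]
      push_cast
      exact hadj x e he
  · intro a b ha hb h
    rw [hcast0, hcast0] at h
    have h1 := haN a ha
    have h2 := haN b hb
    have h3 := haN0 a
    have h4 := haN0 b
    have h5 := int_eq_of_cast _ _ h (by omega) (by omega)
    have h6 : (a : ℤ) = b := mul_right_cancel₀ (by omega) h5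
    omega
  · intro i a b ha hb h
    have h' : ((W i + a * N : ℤ) : ZMod n) = ((b * N : ℤ) : ZMod n) := by
      rw [← hcast, ← hcast0]
      exact h
    have h1 := haN a ha
    have h2 := haN b hb
    have h3 := haN0 a
    have h4 := haN0 b
    have h5 := hErange _ (hWE i)
    have h6 := int_eq_of_cast _ _ h' (by omega) (by omega)
    have h7 : ((b : ℤ) - a) * N = W i := by linarith
    have h8 := hmulN ((b : ℤ) - a) (by omega) (by omega)
    rw [h8, zero_mul] at h7
    exact h5.2.2 h7.symm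
  · intro i j a b ha hb h
    simp only [hcast] at h
    have h1 := haN a ha
    have h2 := haN b hb
    have h3 := haN0 a
    have h4 := haN0 b
    have h5 := hErange _ (hWE i)
    have h6 := hErange _ (hWE j)
    have h7 := int_eq_of_cast _ _ h (by omega) (by omega)
    have h8 : ((b : ℤ) - a) * N = W i - W j := by linarith
    apply hWinj
    rcases hEmem _ (hWE i) with hi | ⟨e, he, heN, hi⟩ <;> rcases hEmem _ (hWE j) with hj | ⟨f, hf, hfN, hj⟩
    · rw [hi, hj]
    · exfalso
      rw [hi, hj] at h8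
      have h9 := hD f hf
      have h10 := hmul2 ((a : ℤ) - b) (by
        have : ((a : ℤ) - b) * N = -(((b : ℤ) - a) * N) := by ring
        omega) (by
        have : ((a : ℤ) - b) * N = -(((b : ℤ) - a) * N) := by ring
        omega)
      have h11 : ((a : ℤ) - b) * N = -(((b : ℤ) - a) * N) := by ring
      rw [h10, one_mul] at h11
      apply hd'
      have : N - d = f := by omega
      rw [this]
      exact hf
    · exfalso
      rw [hi, hj] at h8
      have h9 := hD e he
      have h10 := hmul2 ((b : ℤ) - a) (by omega) (by omega)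
      rw [h10, one_mul] at h8
      apply hd'
      have : N - d = e := by omega
      rw [this]
      exact he
    · rw [hi, hj] at h8 ⊢
      have h9 := hD e he
      have h10 := hD f hf
      have h11 := hmulN ((b : ℤ) - a) (by omega) (by omega)
      rw [h11, zero_mul] at h8
      omega

/-- The conclusion for a set of jumps and a homomorphism with short values. -/
theorem from_hom {Γ : Type} [AddCommGroup Γ] (N Q : ℕ) [NeZero N] (π : Γ →+ ZMod N) (S : Finset Γ)
    (h0 : (0 : Γ) ∉ S)
    (hshort : ∀ s ∈ S, (π s).val = 0 ∨ (Q * (π s).val < N ∨ Q * (N - (π s).val) < N))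
    (A : Finset Γ) (hA : ∀ s ∈ S, π s = 0 → s ∈ A) (hQ : S.card + 2 * A.card + 1 ≤ Q)
    (hne : ∃ s ∈ S, π s ≠ 0)
    (htri : ∀ a b c, (a ∈ S ∨ -a ∈ S) → (b ∈ S ∨ -b ∈ S) → (c ∈ S ∨ -c ∈ S) → π c = 0 → a ≠ b + c) :
    ∃ c, c + 1 ≤ Q ∧ (circulantGraph (S : Set Γ)).Colorable (c + 2) ∧
      HasCliqueMinor (circulantGraph (S : Set Γ)) (c + 1) := by
  classical
  let g : Γ → Γ := fun s => if Q * (π s).val < N then s else -s
  let D : Finset Γ := (S.filter (fun s => π s ≠ 0)).image g
  let T0 : Finset Γ := S.filter (fun s => π s = 0)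
  let T : Finset Γ := T0 ∪ T0.image (fun s => -s)
  have hg : ∀ s, g s = s ∨ g s = -s := by
    intro s
    by_cases h : Q * (π s).val < N
    · exact Or.inl (if_pos h)
    · exact Or.inr (if_neg h)
  have hT0A : T0 ⊆ A := by
    intro s hs
    exact hA s (Finset.mem_filter.1 hs).1 (Finset.mem_filter.1 hs).2
  have hTc : T.card ≤ 2 * A.card := by
    refine le_trans (Finset.card_union_le _ _) ?_
    have h1 := Finset.card_le_card hT0A
    have h2 : (T0.image (fun s => -s)).card ≤ T0.card := Finset.card_image_le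
    omega
  have hDc : D.card ≤ S.card := le_trans Finset.card_image_le (Finset.card_filter_le _ _)
  have hTS : ∀ t ∈ T, (t ∈ S ∨ -t ∈ S) ∧ π t = 0 ∧ t ≠ 0 ∧ -t ∈ T := by
    intro t ht
    rcases Finset.mem_union.1 ht with h | h
    · have h' := Finset.mem_filter.1 h
      refine ⟨Or.inl h'.1, h'.2, fun e => h0 (e ▸ h'.1), ?_⟩
      exact Finset.mem_union_right _ (Finset.mem_image.2 ⟨t, h, rfl⟩)
    · obtain ⟨s, hs, rfl⟩ := Finset.mem_image.1 h
      have h' := Finset.mem_filter.1 hs
      refine ⟨Or.inr (by rw [neg_neg]; exact h'.1), by rw [map_neg, h'.2, neg_zero],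
        fun e => h0 (by rw [neg_eq_zero] at e; exact e ▸ h'.1), ?_⟩
      rw [neg_neg]
      exact Finset.mem_union_left _ hs
  have hDS : ∀ d ∈ D, (d ∈ S ∨ -d ∈ S) ∧ 1 ≤ (π d).val ∧ Q * (π d).val < N := by
    intro d hd
    obtain ⟨s, hs, rfl⟩ := Finset.mem_image.1 hd
    have hs' := Finset.mem_filter.1 hs
    have hv0 : (π s).val ≠ 0 := fun e => hs'.2 ((ZMod.val_eq_zero _).1 e)
    have h2 := (hshort s hs'.1).resolve_left hv0
    by_cases h : Q * (π s).val < N
    · have : g s = s := if_pos h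
      rw [this]
      exact ⟨Or.inl hs'.1, by omega, h⟩
    · have h3 : g s = -s := if_neg h
      have h4 := h2.resolve_left h
      have h6 : (π (-s)).val = N - (π s).val := by
        have : NeZero (π s) := ⟨hs'.2⟩
        rw [map_neg, ZMod.val_neg_of_ne_zero]
      have h7 := ZMod.val_lt (π s)
      rw [h3, h6]
      exact ⟨Or.inr (by rw [neg_neg]; exact hs'.1), by omega, h4⟩
  have hgraph : circulantGraph (S : Set Γ) = circulantGraph ((D : Set Γ) ∪ (T : Set Γ)) := by
    ext u v
    rw [circulantGraph_adj, circulantGraph_adj]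
    refine and_congr_right (fun huv => ?_)
    have key : ∀ x : Γ, ((x ∈ (S : Set Γ) ∨ -x ∈ (S : Set Γ)) ↔
        (x ∈ (D : Set Γ) ∪ (T : Set Γ) ∨ -x ∈ (D : Set Γ) ∪ (T : Set Γ))) := by
      intro x
      have hin : ∀ s ∈ S, (s ∈ (D : Set Γ) ∪ (T : Set Γ) ∨ -s ∈ (D : Set Γ) ∪ (T : Set Γ)) := by
        intro s hs
        by_cases h : π s = 0
        · left; right
          exact Finset.mem_union_left _ (Finset.mem_filter.2 ⟨hs, h⟩)
        · have hmem : g s ∈ D := Finset.mem_image.2 ⟨s, Finset.mem_filter.2 ⟨hs, h⟩, rfl⟩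
          rcases hg s with h' | h' <;> rw [h'] at hmem
          · left; left; exact hmem
          · right; left; exact hmem
      constructor
      · rintro (h | h)
        · exact hin x h
        · have := hin _ h
          rw [neg_neg] at this
          exact this.symm
      · rintro ((h | h) | (h | h))
        · exact (hDS x h).1
        · exact (hTS x h).1
        · have := (hDS _ h).1
          rw [neg_neg] at this
          exact this.symm
        · have := (hTS _ h).1
          rw [neg_neg] at this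
          exact this.symm
    have := key (u - v)
    rwa [neg_sub] at this
  have hDne : D.Nonempty := by
    obtain ⟨s, hs, hs'⟩ := hne
    exact ⟨g s, Finset.mem_image.2 ⟨s, Finset.mem_filter.2 ⟨hs, hs'⟩, rfl⟩⟩
  obtain ⟨s, hs, hmax⟩ := D.exists_max_image (fun d => (π d).val) hDne
  have hc : D.card + T.card + 1 ≤ Q := by omega
  have hq : (D.card + T.card + 1) * (π s).val ≤ N :=
    le_trans (Nat.mul_le_mul_right _ hc) (hDS s hs).2.2.le
  have h1 := criterion_colorable N (π s).val π D T (fun d hd => ⟨(hDS d hd).2.1, hmax d hd⟩)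
    (fun t ht => ⟨(hTS t ht).2.1, (hTS t ht).2.2.2⟩) hq
  have h2 := criterion_minor N π D T s hs (fun d hd => ⟨(hDS d hd).2.1, hmax d hd⟩)
    (fun t ht => ⟨(hTS t ht).2.1, (hTS t ht).2.2.2⟩) (fun h => (hTS 0 h).2.2.1 rfl)
    (fun t ht hst => htri (s + t) s t (hDS _ hst).1 (hDS s hs).1 (hTS t ht).1 (hTS t ht).2.1 rfl) hq
  rw [← hgraph] at h1 h2
  exact ⟨D.card + T.card, hc, h1, h2⟩

/-- Finite abelian groups, all jumps have large order. -/
theorem large_order {Γ : Type} [AddCommGroup Γ] [Finite Γ] (m : ℕ) (S : Set Γ) (hS : S.ncard ≤ m)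
    (hord : ∀ s ∈ S, s ≠ 0 → m * (m + 1) ^ m < addOrderOf s) :
    ∃ c ≤ m, (circulantGraph S).Colorable (c + 2) ∧ HasCliqueMinor (circulantGraph S) (c + 1) := by
  classical
  let S' : Finset Γ := (Set.toFinite (S \ {0})).toFinset
  have hS'mem : ∀ s, s ∈ S' ↔ s ∈ S ∧ s ≠ 0 := by
    intro s
    rw [Set.Finite.mem_toFinset]
    exact Iff.rfl
  have hS'c : S'.card ≤ m := by
    refine le_trans ?_ hS
    rw [← Set.ncard_eq_toFinset_card]
    exact Set.ncard_le_ncard Set.sdiff_subset (Set.toFinite S)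
  have hG : circulantGraph S = circulantGraph (S' : Set Γ) := by
    rw [circulantGraph_eq_erase_zero]
    congr 1
    ext x
    rw [Finset.mem_coe, hS'mem]
    exact Iff.rfl
  rcases S'.eq_empty_or_nonempty with hDe | ⟨s, hs⟩
  · refine ⟨0, Nat.zero_le _, ?_, ?_⟩
    · refine ⟨SimpleGraph.Coloring.mk (fun _ => 0) (fun {u v} h => ?_)⟩
      rw [hG, hDe, circulantGraph_adj] at h
      simp at h
    · refine ⟨fun _ => {0}, fun i => ?_, fun i j hij => ?_, fun i j hij => ?_⟩
      · refine connected_of_root _ _ ⟨0, rfl⟩ ?_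
        rintro ⟨x, hx⟩
        have : x = 0 := hx
        subst this
        exact SimpleGraph.Reachable.refl _
      · exact absurd (Fin.ext (by omega)) hij
      · exact absurd (Fin.ext (by omega)) hij
  · obtain ⟨N, hN, π, hπ1, hπ2⟩ := exists_short m (m + 1) (Nat.succ_pos m) S' S' subset_rfl hS'c
      (fun s hs => hord s ((hS'mem s).1 hs).1 ((hS'mem s).1 hs).2)
    have hπ1' : ∀ s ∈ S', π s ≠ 0 := fun s hs e => hπ1 s hs (by rw [e, ZMod.val_zero])
    obtain ⟨c, hc, h1, h2⟩ := from_hom N (m + 1) π S' (fun h => ((hS'mem 0).1 h).2 rfl) hπ2 ∅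
      (fun s hs e => absurd e (hπ1' s hs)) (by rw [Finset.card_empty]; omega) ⟨s, hs, hπ1' s hs⟩
      (by
        intro a b c _ _ hc hc0 _
        rcases hc with h | h
        · exact hπ1' c h hc0
        · exact hπ1' _ h (by rw [map_neg, hc0, neg_zero]))
    rw [← hG] at h1 h2
    exact ⟨c, by omega, h1, h2⟩

/-- Finite abelian groups, jumps of small order are not in triangles. -/
theorem some_large_order {Γ : Type} [AddCommGroup Γ] [Finite Γ] (m : ℕ) (S : Set Γ)
    (hS : S.ncard ≤ m) (hex : ∃ s ∈ S, scale m (m + 1) < addOrderOf s)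
    (htri : ∀ x y z : Γ, (x ∈ S ∨ -x ∈ S) → (y ∈ S ∨ -y ∈ S) → (z ∈ S ∨ -z ∈ S) →
      x ≠ 0 → y ≠ 0 → z ≠ 0 → x + y + z = 0 → scale m (m + 1) < addOrderOf x) :
    ∃ c, (circulantGraph S).Colorable (c + 2) ∧ HasCliqueMinor (circulantGraph S) (c + 1) := by
  classical
  let S' : Finset Γ := (Set.toFinite (S \ {0})).toFinset
  have hS'mem : ∀ s, s ∈ S' ↔ s ∈ S ∧ s ≠ 0 := by
    intro s
    rw [Set.Finite.mem_toFinset]
    exact Iff.rfl
  have hS'c : S'.card ≤ m := by
    refine le_trans ?_ hS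
    rw [← Set.ncard_eq_toFinset_card]
    exact Set.ncard_le_ncard Set.sdiff_subset (Set.toFinite S)
  have hG : circulantGraph S = circulantGraph (S' : Set Γ) := by
    rw [circulantGraph_eq_erase_zero]
    congr 1
    ext x
    rw [Finset.mem_coe, hS'mem]
    exact Iff.rfl
  obtain ⟨i, him, hi⟩ := exists_scale m S' hS'c
  have hmono : ∀ j, j ≤ m + 1 → scale m j ≤ scale m (m + 1) := fun j hj => scale_mono m hj
  let L : Finset Γ := S'.filter (fun s => scale m (i + 1) < addOrderOf s)
  have hsc := scale_ge m i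
  obtain ⟨N, hN, π, hπ1, hπ2⟩ := exists_short m (scale m i) (by omega) S' L (Finset.filter_subset _ _)
    hS'c (fun s hs => lt_of_le_of_lt (le_max_right _ _) (Finset.mem_filter.1 hs).2)
  have hsmall : ∀ s ∈ S', addOrderOf s ≤ scale m i → π s = 0 := by
    intro s hs h
    exact short_of_small_order π s (addOrderOf_pos s) h (hπ2 s hs)
  have hzero : ∀ s ∈ S', π s = 0 → addOrderOf s ≤ scale m i := by
    intro s hs h
    rcases hi s hs with h' | h'
    · exact h'
    · exfalso
      exact hπ1 s (Finset.mem_filter.2 ⟨hs, h'⟩) (by rw [h, ZMod.val_zero])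
  obtain ⟨s, hsS, hs⟩ := hex
  have hs0 : s ≠ 0 := by
    rintro rfl
    rw [addOrderOf_zero] at hs
    have := scale_ge m (m + 1)
    omega
  have hsS' : s ∈ S' := (hS'mem s).2 ⟨hsS, hs0⟩
  have hπs : π s ≠ 0 := by
    intro e
    have h1 := hzero s hsS' e
    have h2 := hmono i (by omega)
    omega
  have hmem : ∀ a, (a ∈ S' ∨ -a ∈ S') → (a ∈ S ∨ -a ∈ S) ∧ a ≠ 0 := by
    rintro a (h | h)
    · exact ⟨Or.inl ((hS'mem a).1 h).1, ((hS'mem a).1 h).2⟩
    · exact ⟨Or.inr ((hS'mem _).1 h).1, fun e => ((hS'mem _).1 h).2 (by rw [e, neg_zero])⟩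
  obtain ⟨c, hc, h1, h2⟩ := from_hom N (scale m i) π S' (fun h => ((hS'mem 0).1 h).2 rfl) hπ2
    (S'.filter (fun s => π s = 0)) (fun s hs e => Finset.mem_filter.2 ⟨hs, e⟩) (by
      have := Finset.card_filter_le S' (fun s => π s = 0)
      omega) ⟨s, hsS', hπs⟩ (by
      intro a b c ha hb hc hc0 habc
      have h1 := hmem a ha
      have h2 := hmem b hb
      have h3 := hmem c hc
      have h4 : addOrderOf c ≤ scale m i := by
        rcases hc with h | h
        · exact hzero c h hc0
        · have := hzero _ h (by rw [map_neg, hc0, neg_zero])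
          rwa [addOrderOf_neg] at this
      have h5 := htri c b (-a) h3.1 h2.1 (by rw [neg_neg]; exact h1.1.symm) h3.2 h2.2
        (by rw [neg_ne_zero]; exact h1.2) (by rw [habc]; abel)
      have h6 := hmono i (by omega)
      omega)
  rw [← hG] at h1 h2
  exact ⟨c, h1, h2⟩

/-- Generated by few elements of small order implies small. -/
lemma card_le_of_orders {Γ : Type} [AddCommGroup Γ] [Finite Γ] (S : Finset Γ) (R : ℕ)
    (hgen : AddSubgroup.closure (S : Set Γ) = ⊤) (hR : ∀ s ∈ S, addOrderOf s ≤ R) :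
    Nat.card Γ ≤ R ^ S.card := by
  classical
  have hP : ∀ x : Γ, ∃ n : Γ → ℕ, x = ∑ s ∈ S, n s • s := by
    intro x
    have hx : x ∈ AddSubgroup.closure (S : Set Γ) := by rw [hgen]; exact AddSubgroup.mem_top x
    induction hx using AddSubgroup.closure_induction with
    | mem x hx =>
      refine ⟨fun s => if s = x then 1 else 0, ?_⟩
      simp only [ite_smul, one_smul, zero_smul]
      rw [Finset.sum_ite_eq' S x]
      exact (if_pos hx).symm
    | zero => exact ⟨fun _ => 0, by simp⟩
    | add x y _ _ ihx ihy =>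
      obtain ⟨n, hn⟩ := ihx
      obtain ⟨k, hk⟩ := ihy
      refine ⟨fun s => n s + k s, ?_⟩
      rw [hn, hk, ← Finset.sum_add_distrib]
      exact Finset.sum_congr rfl (fun s _ => (add_nsmul _ _ _).symm)
    | neg x _ ih =>
      obtain ⟨n, hn⟩ := ih
      refine ⟨fun s => n s * (addOrderOf s - 1), ?_⟩
      rw [hn, ← Finset.sum_neg_distrib]
      refine Finset.sum_congr rfl (fun s _ => ?_)
      rw [neg_eq_iff_add_eq_zero, ← add_nsmul]
      have h1 := addOrderOf_pos s
      have h2 : n s + n s * (addOrderOf s - 1) = n s * addOrderOf s := by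
        obtain ⟨o, ho⟩ : ∃ o, addOrderOf s = o + 1 := ⟨addOrderOf s - 1, by omega⟩
        rw [ho, Nat.add_sub_cancel]
        ring
      rw [h2, mul_comm, mul_nsmul, addOrderOf_nsmul_eq_zero, nsmul_zero]
  let F : (S → Fin R) → Γ := fun f => ∑ s : S, (f s).val • s.1
  have hF : Function.Surjective F := by
    intro x
    obtain ⟨n, hn⟩ := hP x
    refine ⟨fun s => ⟨n s.1 % addOrderOf s.1, lt_of_lt_of_le (Nat.mod_lt _ (addOrderOf_pos _))
      (hR s.1 s.2)⟩, ?_⟩
    show ∑ s : S, (n s.1 % addOrderOf s.1) • s.1 = x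
    rw [hn, ← Finset.sum_coe_sort S (fun s => n s • s)]
    exact Finset.sum_congr rfl (fun s _ => mod_addOrderOf_nsmul _ _)
  have h1 := Nat.card_le_card_of_surjective F hF
  refine le_trans h1 ?_
  rw [Nat.card_eq_fintype_card, Fintype.card_fun, Fintype.card_fin, Fintype.card_coe]

theorem connected_large {Γ : Type} [AddCommGroup Γ] [Finite Γ] (m : ℕ) (S : Set Γ)
    (hS : S.ncard ≤ m) (hgen : AddSubgroup.closure S = ⊤)
    (hcard : (scale m (m + 1)) ^ m < Nat.card Γ) :
    ∃ s ∈ S, scale m (m + 1) < addOrderOf s := by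
  classical
  by_contra hcon
  push Not at hcon
  have h1 := card_le_of_orders (Set.toFinite S).toFinset (scale m (m + 1))
    (by rw [Set.Finite.coe_toFinset]; exact hgen)
    (fun s hs => hcon s ((Set.Finite.mem_toFinset _).1 hs))
  have h2 : (Set.toFinite S).toFinset.card ≤ m := by
    rw [← Set.ncard_eq_toFinset_card]; exact hS
  have h3 := scale_ge m (m + 1)
  have h4 : scale m (m + 1) ^ (Set.toFinite S).toFinset.card ≤ scale m (m + 1) ^ m :=
    Nat.pow_le_pow_right (by omega) h2
  omega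

end Pool.Agent.J4H91.AC
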