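import Mathlib

/-!
Clique minors in Cayley graphs of abelian groups.  Let `s` and `w_1, …, w_t` be jumps.  The cosets
`w_i + ⟨s⟩` (long paths) are all adjacent to every vertex `a s` of the path `⟨s⟩`.  If these paths are disjoint, then
`K_{t+2}` is a minor.
-/

set_option autoImplicit false

namespace Pool.Agent.J4H91.AC

/-- `K_m` is a minor of `G`: there are `m` pairwise disjoint vertex sets, each inducing a connected
subgraph, with an edge of `G` between any two of them. -/
def HasCliqueMinor {V : Type} (G : SimpleGraph V) (m : ℕ) : Prop :=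
  ∃ B : Fin m → Set V, (∀ i, (G.induce (B i)).Connected) ∧
    (∀ i j, i ≠ j → Disjoint (B i) (B j)) ∧
    ∀ i j, i ≠ j → ∃ u ∈ B i, ∃ v ∈ B j, G.Adj u v

lemma HasCliqueMinor.mono {V : Type} {G : SimpleGraph V} {m k : ℕ} (h : HasCliqueMinor G m)
    (hk : k ≤ m) : HasCliqueMinor G k := by
  obtain ⟨B, h1, h2, h3⟩ := h
  refine ⟨fun i => B (Fin.castLE hk i), fun i => h1 _, fun i j hij => h2 _ _ ?_,
    fun i j hij => h3 _ _ ?_⟩
  · exact fun e => hij (Fin.castLE_injective hk e)
  · exact fun e => hij (Fin.castLE_injective hk e)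

lemma connected_of_root {V : Type} (G : SimpleGraph V) (B : Set V) (r : B)
    (h : ∀ x : B, (G.induce B).Reachable r x) : (G.induce B).Connected := by
  have : Nonempty B := ⟨r⟩
  exact ⟨fun u v => (h u).symm.trans (h v)⟩

theorem minor_of_leaves {Γ : Type} [AddCommGroup Γ] (G : SimpleGraph Γ) (s : Γ) (t J : ℕ)
    (W : Fin t → Γ) (hs : ∀ x, G.Adj x (x + s)) (hW : ∀ x i, G.Adj x (x + W i))
    (hJ1 : 1 ≤ J) (hJt : t ≤ J)
    (h0 : ∀ a b : ℕ, a ≤ J → b ≤ J → a • s = b • s → a = b)
    (h1 : ∀ i, ∀ a b : ℕ, a ≤ J → b ≤ J → W i + a • s ≠ b • s)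
    (h2 : ∀ i j, ∀ a b : ℕ, a ≤ J → b ≤ J → W i + a • s = W j + b • s → i = j) :
    HasCliqueMinor G (t + 2) := by
  let B : Fin (t + 2) → Set Γ := fun i => {x | (∃ j : Fin t, j.val = i.val ∧
      ((∃ a : ℕ, a ≤ J ∧ x = W j + a • s) ∨ (j.val + 1 < t ∧ x = j.val • s))) ∨
    (i.val = t ∧ x = (J - 1) • s) ∨ (i.val = t + 1 ∧ x = J • s)}
  have hBW : ∀ (i : Fin (t + 2)) (j : Fin t) (a : ℕ), j.val = i.val → a ≤ J → W j + a • s ∈ B i :=
    fun i j a h h' => Or.inl ⟨j, h, Or.inl ⟨a, h', rfl⟩⟩
  have hBc : ∀ (i : Fin (t + 2)) (j : Fin t), j.val = i.val → j.val + 1 < t → j.val • s ∈ B i :=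
    fun i j h h' => Or.inl ⟨j, h, Or.inr ⟨h', rfl⟩⟩
  have hBt : ∀ i : Fin (t + 2), i.val = t → (J - 1) • s ∈ B i := fun i h => Or.inr (Or.inl ⟨h, rfl⟩)
  have hBt' : ∀ i : Fin (t + 2), i.val = t + 1 → J • s ∈ B i := fun i h => Or.inr (Or.inr ⟨h, rfl⟩)
  have hconn : ∀ i, (G.induce (B i)).Connected := by
    intro i
    by_cases hi : i.val < t
    · let j : Fin t := ⟨i.val, hi⟩
      have hmem : ∀ a : ℕ, a ≤ J → W j + a • s ∈ B i := fun a ha => hBW i j a rfl ha
      have hreach : ∀ a : ℕ, ∀ ha : a ≤ J, (G.induce (B i)).Reachable ⟨W j + 0 • s, hmem 0 (Nat.zero_le _)⟩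
          ⟨W j + a • s, hmem a ha⟩ := by
        intro a
        induction a with
        | zero => intro _; exact SimpleGraph.Reachable.refl _
        | succ a ih =>
          intro ha
          refine (ih (by omega)).trans (SimpleGraph.Adj.reachable ?_)
          show G.Adj (W j + a • s) (W j + (a + 1) • s)
          rw [succ_nsmul, ← add_assoc]
          exact hs _
      refine connected_of_root G (B i) ⟨W j + 0 • s, hmem 0 (Nat.zero_le _)⟩ ?_
      rintro ⟨x, hx⟩
      have hx' := hx
      rcases hx' with ⟨l, hl, ⟨a, ha, hxa⟩ | ⟨hl', hxl⟩⟩ | ⟨h, _⟩ | ⟨h, _⟩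
      · have : l = j := Fin.ext hl
        subst this
        subst hxa
        exact hreach a ha
      · have hlj : l = j := Fin.ext hl
        rw [hlj] at hl' hxl
        subst hxl
        refine (hreach j.val (by omega)).trans (SimpleGraph.Adj.reachable ?_)
        show G.Adj (W j + j.val • s) (j.val • s)
        rw [add_comm (W j)]
        exact (hW _ _).symm
      · omega
      · omega
    · have hsub : ∀ x ∈ B i, ∀ y ∈ B i, x = y := by
        rintro x (⟨l, hl, _⟩ | ⟨h, hx⟩ | ⟨h, hx⟩) y (⟨l', hl', _⟩ | ⟨h', hy⟩ | ⟨h', hy⟩)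
        · exact absurd l.isLt (by omega)
        · exact absurd l.isLt (by omega)
        · exact absurd l.isLt (by omega)
        · exact absurd l'.isLt (by omega)
        · rw [hx, hy]
        · omega
        · exact absurd l'.isLt (by omega)
        · omega
        · rw [hx, hy]
      have hne : (B i).Nonempty := by
        by_cases h : i.val = t
        · exact ⟨_, hBt i h⟩
        · exact ⟨_, hBt' i (by omega)⟩
      obtain ⟨z, hz⟩ := hne
      refine connected_of_root G (B i) ⟨z, hz⟩ ?_
      rintro ⟨x, hx⟩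
      have : x = z := hsub x hx z hz
      subst this
      exact SimpleGraph.Reachable.refl _
  refine ⟨B, hconn, ?_, ?_⟩
  · intro i j hij
    have hv : i.val ≠ j.val := fun e => hij (Fin.ext e)
    rw [Set.disjoint_left]
    rintro x (⟨l, hl, ⟨a, ha, hx⟩ | ⟨hl1, hx⟩⟩ | ⟨h, hx⟩ | ⟨h, hx⟩)
      (⟨l', hl', ⟨b, hb, hy⟩ | ⟨hl1', hy⟩⟩ | ⟨h', hy⟩ | ⟨h', hy⟩) <;> rw [hx] at hy
    · have := h2 l l' a b ha hb hy
      rw [this] at hl; omega
    · exact h1 l a _ ha (by omega) hy
    · exact h1 l a _ ha (by omega) hy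
    · exact h1 l a _ ha (by omega) hy
    · exact h1 l' b _ hb (by omega) hy.symm
    · have := h0 _ _ (by omega) (by omega) hy; omega
    · have := h0 _ _ (by omega) (by omega) hy; omega
    · have := h0 _ _ (by omega) (by omega) hy; omega
    · exact h1 l' b _ hb (by omega) hy.symm
    · have := h0 _ _ (by omega) (by omega) hy; omega
    · omega
    · have := h0 _ _ (by omega) (by omega) hy; omega
    · exact h1 l' b _ hb (by omega) hy.symm
    · have := h0 _ _ (by omega) (by omega) hy; omega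
    · have := h0 _ _ (by omega) (by omega) hy; omega
    · omega
  · have key : ∀ i j : Fin (t + 2), i.val < j.val → ∃ u ∈ B i, ∃ v ∈ B j, G.Adj u v := by
      intro i j hij
      have hj2 := j.isLt
      by_cases hj : j.val < t
      · refine ⟨i.val • s, hBc i ⟨i.val, by omega⟩ rfl (by simp only; omega),
          W ⟨j.val, hj⟩ + i.val • s, hBW j ⟨j.val, hj⟩ _ rfl (by omega), ?_⟩
        rw [add_comm (W _)]
        exact hW _ _
      · by_cases hjt : j.val = t
        · refine ⟨W ⟨i.val, by omega⟩ + (J - 1) • s, hBW i ⟨i.val, by omega⟩ _ rfl (by omega),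
            (J - 1) • s, hBt j hjt, ?_⟩
          rw [add_comm (W _)]
          exact (hW _ _).symm
        · by_cases hi : i.val < t
          · refine ⟨W ⟨i.val, by omega⟩ + J • s, hBW i ⟨i.val, by omega⟩ _ rfl le_rfl,
              J • s, hBt' j (by omega), ?_⟩
            rw [add_comm (W _)]
            exact (hW _ _).symm
          · refine ⟨(J - 1) • s, hBt i (by omega), J • s, hBt' j (by omega), ?_⟩
            have : J • s = (J - 1) • s + s := by
              rw [← succ_nsmul]
              congr 1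
              omega
            rw [this]
            exact hs _
    intro i j hij
    have hv : i.val ≠ j.val := fun e => hij (Fin.ext e)
    rcases lt_or_gt_of_ne hv with h | h
    · exact key i j h
    · obtain ⟨u, hu, v, hv, huv⟩ := key j i h
      exact ⟨v, hv, u, hu, huv.symm⟩

end Pool.Agent.J4H91.AC
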