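import Pool.Agent.J4H91.AC.Greedy
import Pool.Agent.J4H91.AC.Minor

/-!
The criterion: Cayley graphs of abelian groups with a homomorphism to a cyclic group that maps the
jumps to short elements.
-/

set_option autoImplicit false

namespace Pool.Agent.J4H91.AC

open SimpleGraph

lemma val_add_cases {q : ℕ} [NeZero q] (a b : ZMod q) :
    a.val + b.val = (a + b).val ∨ a.val + b.val = (a + b).val + q := by
  rw [ZMod.val_add]
  have ha := ZMod.val_lt a
  have hb := ZMod.val_lt b
  have hm := Nat.div_add_mod (a.val + b.val) q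
  have hlt := Nat.mod_lt (a.val + b.val) (NeZero.pos q)
  have hd : (a.val + b.val) / q ≤ 1 := by
    by_contra hcon
    have : 2 ≤ (a.val + b.val) / q := by omega
    have : q * 2 ≤ q * ((a.val + b.val) / q) := Nat.mul_le_mul_left _ this
    omega
  rcases Nat.le_one_iff_eq_zero_or_eq_one.1 hd with h | h <;> rw [h] at hm <;> omega

/-- Colouring. -/
theorem criterion_colorable {Γ : Type} [AddCommGroup Γ] (q μ : ℕ) [NeZero q] (π : Γ →+ ZMod q)
    (D T : Finset Γ) (hD : ∀ d ∈ D, 1 ≤ (π d).val ∧ (π d).val ≤ μ)
    (hT : ∀ τ ∈ T, π τ = 0 ∧ -τ ∈ T) (hq : (D.card + T.card + 1) * μ ≤ q) :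
    (circulantGraph ((D : Set Γ) ∪ (T : Set Γ))).Colorable (D.card + T.card + 2) := by
  classical
  let P : Γ → Set Γ := fun x => {y | (∃ d ∈ D, y = x - d) ∨ ∃ τ ∈ T, y = x - τ ∧ WellOrderingRel y x}
  have hsub : ∀ x, P x ⊆ ((D ∪ T).image (fun d => x - d) : Finset Γ) := by
    rintro x y (⟨d, hd, rfl⟩ | ⟨τ, hτ, rfl, _⟩)
    · rw [Finset.mem_coe, Finset.mem_image]
      exact ⟨d, Finset.mem_union_left _ hd, rfl⟩
    · rw [Finset.mem_coe, Finset.mem_image]
      exact ⟨τ, Finset.mem_union_right _ hτ, rfl⟩
  have hfin : ∀ x, (P x).Finite := fun x => (Finset.finite_toSet _).subset (hsub x)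
  refine colorable_cyclic _ (D.card + T.card) μ q hq (fun x => (π x).val) (fun x => ZMod.val_lt _) P
    hfin ?_ ?_ ?_ ?_
  · intro x
    calc (P x).ncard ≤ ((((D ∪ T).image (fun d => x - d) : Finset Γ) : Set Γ)).ncard :=
          Set.ncard_le_ncard (hsub x) (Finset.finite_toSet _)
      _ = ((D ∪ T).image (fun d => x - d)).card := Set.ncard_coe_finset _
      _ ≤ (D ∪ T).card := Finset.card_image_le
      _ ≤ D.card + T.card := Finset.card_union_le _ _
  · intro x y hxy
    rw [circulantGraph_adj] at hxy
    obtain ⟨hne, h⟩ := hxy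
    rcases h with (h | h) | (h | h)
    · left; left; exact ⟨x - y, h, by abel⟩
    · rcases trichotomous_of (WellOrderingRel (α := Γ)) x y with h' | h' | h'
      · right; right
        exact ⟨-(x - y), (hT _ h).2, by abel, h'⟩
      · exact absurd h' hne
      · left; right
        exact ⟨x - y, h, by abel, h'⟩
    · right; left; exact ⟨y - x, h, by abel⟩
    · rcases trichotomous_of (WellOrderingRel (α := Γ)) x y with h' | h' | h'
      · right; right
        exact ⟨y - x, h, by abel, h'⟩
      · exact absurd h' hne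
      · left; right
        exact ⟨-(y - x), (hT _ h).2, by abel, h'⟩
  · rintro x y (⟨d, hd, rfl⟩ | ⟨τ, hτ, rfl, _⟩)
    · refine ⟨(π d).val, (hD d hd).2, ?_⟩
      have := val_add_cases (π (x - d)) (π d)
      rwa [← map_add, sub_add_cancel] at this
    · refine ⟨0, Nat.zero_le _, Or.inl ?_⟩
      simp [(hT τ hτ).1]
  · refine Subrelation.wf (r := WellOrderingRel (α := Γ)) ?_ WellOrderingRel.isWellOrder.wf
    rintro y x ⟨⟨d, hd, rfl⟩ | ⟨τ, hτ, rfl, h⟩, hlev⟩
    · exfalso
      have h1 := (hD d hd).1
      have h2 : π (x - d) = π x := ZMod.val_injective q hlev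
      have h3 : π d = 0 := by
        have := map_sub π x d
        rw [h2] at this
        have : π x - π d = π x := this.symm
        simpa using this
      rw [h3, ZMod.val_zero] at h1
      omega
    · exact h

lemma val_nsmul_of_lt {q : ℕ} [NeZero q] (x : ZMod q) (a : ℕ) (h : a * x.val < q) :
    (a • x).val = a * x.val := by
  have : a • x = ((a * x.val : ℕ) : ZMod q) := by
    rw [Nat.cast_mul, ZMod.natCast_zmod_val, nsmul_eq_mul]
  rw [this, ZMod.val_natCast_of_lt h]

lemma val_add_nsmul_of_lt {q : ℕ} [NeZero q] (y x : ZMod q) (a : ℕ) (h : y.val + a * x.val < q) :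
    (y + a • x).val = y.val + a * x.val := by
  have : y + a • x = ((y.val + a * x.val : ℕ) : ZMod q) := by
    rw [Nat.cast_add, Nat.cast_mul, ZMod.natCast_zmod_val, ZMod.natCast_zmod_val, nsmul_eq_mul]
  rw [this, ZMod.val_natCast_of_lt h]

/-- Clique minor. -/
theorem criterion_minor {Γ : Type} [AddCommGroup Γ] (q : ℕ) [NeZero q] (π : Γ →+ ZMod q)
    (D T : Finset Γ) (s : Γ) (hsD : s ∈ D) (hD : ∀ d ∈ D, 1 ≤ (π d).val ∧ (π d).val ≤ (π s).val)
    (hT : ∀ τ ∈ T, π τ = 0 ∧ -τ ∈ T) (hT0 : (0 : Γ) ∉ T) (hTs : ∀ τ ∈ T, s + τ ∉ D)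
    (hq : (D.card + T.card + 1) * (π s).val ≤ q) :
    HasCliqueMinor (circulantGraph ((D : Set Γ) ∪ (T : Set Γ))) (D.card + T.card + 1) := by
  classical
  set σ := (π s).val with hσ
  have hσ1 : 1 ≤ σ := (hD s hsD).1
  have hDT : Disjoint (D.erase s) T := by
    rw [Finset.disjoint_left]
    intro x hx hx'
    have h1 := (hD x (Finset.mem_of_mem_erase hx)).1
    rw [(hT x hx').1, ZMod.val_zero] at h1
    omega
  let E := D.erase s ∪ T
  have hE : E.card = D.card - 1 + T.card := by
    rw [Finset.card_union_of_disjoint hDT, Finset.card_erase_of_mem hsD]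
  have hDpos : 0 < D.card := Finset.card_pos.2 ⟨s, hsD⟩
  let W : Fin E.card → Γ := fun i => (E.equivFin.symm i).1
  have hWE : ∀ i, W i ∈ E := fun i => (E.equivFin.symm i).2
  have hWinj : Function.Injective W := by
    intro i j hij
    exact E.equivFin.symm.injective (Subtype.ext hij)
  have hs0 : s ≠ 0 := by
    rintro rfl
    rw [map_zero, ZMod.val_zero] at hσ
    omega
  have hW0 : ∀ i, W i ≠ 0 := by
    intro i h0
    have := hWE i
    rw [h0, Finset.mem_union] at this
    rcases this with h | h
    · have h1 := (hD 0 (Finset.mem_of_mem_erase h)).1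
      rw [map_zero, ZMod.val_zero] at h1
      omega
    · exact hT0 h
  have hWv : ∀ i, (π (W i)).val ≤ σ := by
    intro i
    have := hWE i
    rw [Finset.mem_union] at this
    rcases this with h | h
    · exact (hD _ (Finset.mem_of_mem_erase h)).2
    · rw [(hT _ h).1, ZMod.val_zero]
      exact Nat.zero_le _
  let J := max E.card 1
  have hJ : ∀ a : ℕ, a ≤ J → a * σ < q := by
    intro a ha
    have h1 : a * σ ≤ (D.card + T.card) * σ := Nat.mul_le_mul_right _ (by omega)
    have h2 : (D.card + T.card + 1) * σ = (D.card + T.card) * σ + σ := by ring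
    omega
  have hJ' : ∀ (_ : Fin E.card) (a : ℕ), a ≤ J → σ + a * σ < q := by
    intro i a ha
    have hi := i.isLt
    have h1 : (a + 1) * σ ≤ (D.card + T.card) * σ := Nat.mul_le_mul_right _ (by omega)
    have h2 : (D.card + T.card + 1) * σ = (D.card + T.card) * σ + σ := by ring
    have h3 : (a + 1) * σ = a * σ + σ := by ring
    omega
  have hadd : ∀ (i : Fin E.card) (a : ℕ), a ≤ J → (π (W i + a • s)).val = (π (W i)).val + a * σ := by
    intro i a ha
    rw [map_add, map_nsmul]
    have h1 := hWv i
    have h2 := hJ' i a ha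
    exact val_add_nsmul_of_lt _ _ _ (by rw [← hσ]; omega)
  have hc : ∀ a : ℕ, a ≤ J → (π (a • s)).val = a * σ := by
    intro a ha
    rw [map_nsmul]
    exact val_nsmul_of_lt _ _ (hJ a ha)
  have hmul : ∀ a b c : ℕ, c ≤ σ → c + a * σ = b * σ → (c = 0 ∧ a = b) ∨ (c = σ ∧ b = a + 1) := by
    intro a b c hcσ h
    rcases Nat.lt_trichotomy a b with hab | hab | hab
    · right
      obtain ⟨e, rfl⟩ := Nat.exists_eq_add_of_lt hab
      have h3 : (a + e + 1) * σ = a * σ + e * σ + σ := by ring
      have he : e * σ = 0 := by omega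
      have he0 : e = 0 := by
        rcases Nat.mul_eq_zero.1 he with h | h
        · exact h
        · omega
      subst he0
      refine ⟨by omega, rfl⟩
    · left
      subst hab
      exact ⟨by omega, rfl⟩
    · exfalso
      have : (b + 1) * σ ≤ a * σ := Nat.mul_le_mul_right _ hab
      have h3 : (b + 1) * σ = b * σ + σ := by ring
      omega
  have hmain := minor_of_leaves (circulantGraph ((D : Set Γ) ∪ (T : Set Γ))) s E.card J W ?_ ?_
    (le_max_right _ _) (le_max_left _ _) ?_ ?_ ?_
  · refine hmain.mono (by omega)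
  · intro x
    rw [circulantGraph_adj]
    refine ⟨fun e => hs0 (by simpa using e.symm), Or.inr ?_⟩
    rw [add_sub_cancel_left]
    exact Or.inl hsD
  · intro x i
    rw [circulantGraph_adj]
    refine ⟨fun e => hW0 i (by simpa using e.symm), Or.inr ?_⟩
    rw [add_sub_cancel_left]
    have := hWE i
    rw [Finset.mem_union] at this
    rcases this with h | h
    · exact Or.inl (Finset.mem_of_mem_erase h)
    · exact Or.inr h
  · intro a b ha hb h
    have h1 : (π (a • s)).val = (π (b • s)).val := by rw [h]
    rw [hc a ha, hc b hb] at h1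
    exact Nat.eq_of_mul_eq_mul_right (by omega) h1
  · intro i a b ha hb h
    have h1 : (π (W i + a • s)).val = (π (b • s)).val := by rw [h]
    rw [hadd i a ha, hc b hb] at h1
    rcases hmul a b _ (hWv i) h1 with ⟨_, hab⟩ | ⟨_, hab⟩
    · subst hab
      exact hW0 i (by simpa using h)
    · subst hab
      have hi : W i = s := by
        rw [succ_nsmul, add_comm (a • s)] at h
        exact add_right_cancel h
      have := hWE i
      rw [hi, Finset.mem_union] at this
      rcases this with h | h
      · exact Finset.notMem_erase s D h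
      · have h2 := (hT s h).1
        rw [h2, ZMod.val_zero] at hσ
        omega
  · have key : ∀ i j : Fin E.card, ∀ a b : ℕ, a ≤ J → b ≤ J → a ≤ b → W i + a • s = W j + b • s →
        i = j := by
      intro i j a b ha hb hab h
      have h1 : (π (W i + a • s)).val = (π (W j + b • s)).val := by rw [h]
      rw [hadd i a ha, hadd j b hb] at h1
      have hi := hWv i
      have hj := hWv j
      obtain ⟨c, rfl⟩ := Nat.exists_eq_add_of_le hab
      have h3 : (a + c) * σ = a * σ + c * σ := by ring
      have hc1 : (π (W j)).val + c * σ = (π (W i)).val := by omega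
      have hij : W i = W j + c • s := by
        rw [add_nsmul, add_comm (a • s), ← add_assoc] at h
        exact add_right_cancel h
      rcases Nat.eq_zero_or_pos c with hc0 | hcpos
      · subst hc0
        exact hWinj (by simpa using hij)
      · have hcσ : σ ≤ c * σ := Nat.le_mul_of_pos_left _ hcpos
        have hcσ' : c * σ = σ := by omega
        have hcσ1 : c * σ = 1 * σ := by rw [one_mul]; exact hcσ'
        have hc1' : c = 1 := Nat.eq_of_mul_eq_mul_right (by omega) hcσ1
        have hj0 : (π (W j)).val = 0 := by omega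
        have hi0 : (π (W i)).val = σ := by omega
        subst hc1'
        rw [one_nsmul] at hij
        have hjE := hWE j
        rw [Finset.mem_union] at hjE
        rcases hjE with hj' | hj'
        · have := (hD _ (Finset.mem_of_mem_erase hj')).1
          omega
        · have hiE := hWE i
          rw [Finset.mem_union] at hiE
          rcases hiE with hi' | hi'
          · exfalso
            apply hTs _ hj'
            rw [add_comm, ← hij]
            exact Finset.mem_of_mem_erase hi'
          · exfalso
            rw [(hT _ hi').1, ZMod.val_zero] at hi0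
            omega
    intro i j a b ha hb h
    rcases Nat.le_total a b with hab | hab
    · exact key i j a b ha hb hab h
    · exact (key j i b a hb ha hab h.symm).symm

end Pool.Agent.J4H91.AC
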