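import Mathlib

/-!
Cyclic greedy colouring.  Let the vertices of a graph have levels in a cyclic order of length `q`, let every
vertex have at most `m` predecessors, which lie at most `μ` levels below it, and let any two adjacent vertices
be comparable.  If `(m + 1) μ ≤ q`, then the graph is `(m + 2)`-colourable.  (For linear orders `m + 1`
colours suffice.)
-/

set_option autoImplicit false

namespace Pool.Agent.J4H91.AC

/-- The kernel of a well-founded relation inside a set. -/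
lemma exists_kernel {V : Type} (R : V → V → Prop) (hR : WellFounded R) (A : Set V) :
    ∃ G : Set V, ∀ x, x ∈ G ↔ x ∈ A ∧ ∀ y, R y x → y ∉ G := by
  let F : (x : V) → ((y : V) → R y x → Prop) → Prop := fun x f => x ∈ A ∧ ∀ y (h : R y x), ¬ f y h
  refine ⟨{x | hR.fix F x}, fun x => ?_⟩
  show hR.fix F x ↔ _
  rw [hR.fix_eq]
  exact Iff.rfl

/-- The index `i` is switched on at level `l`. -/
def On (μ i l : ℕ) : Prop := ¬ (i * μ ≤ l ∧ l < (i + 1) * μ)

/-- The time of level `l` if one starts after the gap of the index `i`. -/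
def tm (μ q i l : ℕ) : ℕ := if (i + 1) * μ ≤ l then l - (i + 1) * μ else l + q - (i + 1) * μ

lemma tm_le (μ q i l l' δ : ℕ) (hi : (i + 1) * μ ≤ q) (hl : l < q) (hl' : l' < q) (hδ : δ ≤ μ)
    (h : l' + δ = l ∨ l' + δ = l + q) (h1 : On μ i l) (h2 : On μ i l') :
    tm μ q i l' < tm μ q i l ∨ (tm μ q i l' = tm μ q i l ∧ l' = l) := by
  unfold On at h1 h2
  unfold tm
  have e : (i + 1) * μ = i * μ + μ := by ring
  generalize (i + 1) * μ = a at *
  generalize i * μ = b at *
  split_ifs <;> omega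

lemma off_unique (μ i j l : ℕ) (h1 : ¬ On μ i l) (h2 : ¬ On μ j l) : i = j := by
  unfold On at h1 h2
  push Not at h1 h2
  by_contra hne
  rcases Nat.lt_or_gt_of_ne hne with h | h
  · have : (i + 1) * μ ≤ j * μ := Nat.mul_le_mul_right _ h
    omega
  · have : (j + 1) * μ ≤ i * μ := Nat.mul_le_mul_right _ h
    omega

theorem colorable_cyclic {V : Type} (F : SimpleGraph V) (m μ q : ℕ) (hq : (m + 1) * μ ≤ q)
    (L : V → ℕ) (hL : ∀ x, L x < q) (P : V → Set V) (hPf : ∀ x, (P x).Finite)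
    (hPc : ∀ x, (P x).ncard ≤ m) (hadj : ∀ x y, F.Adj x y → y ∈ P x ∨ x ∈ P y)
    (hlev : ∀ x, ∀ y ∈ P x, ∃ δ ≤ μ, L y + δ = L x ∨ L y + δ = L x + q)
    (hwf : WellFounded (fun y x => y ∈ P x ∧ L y = L x)) : F.Colorable (m + 2) := by
  classical
  let R : Fin (m + 1) → V → V → Prop := fun i y x => y ∈ P x ∧ On μ i.val (L y) ∧ On μ i.val (L x)
  have hi : ∀ i : Fin (m + 1), (i.val + 1) * μ ≤ q := fun i =>
    le_trans (Nat.mul_le_mul_right _ (by omega)) hq
  have hR : ∀ i, WellFounded (R i) := by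
    intro i
    have hlex := WellFounded.prod_lex (Nat.lt_wfRel.wf) hwf
    refine Subrelation.wf (r := InvImage (Prod.Lex _ _) (fun x => (tm μ q i.val (L x), x))) ?_
      (InvImage.wf _ hlex)
    intro y x hyx
    obtain ⟨hy, h1, h2⟩ := hyx
    obtain ⟨δ, hδ, hd⟩ := hlev x y hy
    rcases tm_le μ q i.val (L x) (L y) δ (hi i) (hL x) (hL y) hδ hd h2 h1 with h | ⟨h, h'⟩
    · exact Prod.Lex.left _ _ h
    · show Prod.Lex _ _ (tm μ q i.val (L y), y) (tm μ q i.val (L x), x)
      rw [h]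
      exact Prod.Lex.right _ ⟨hy, h'⟩
  let Q : (Σ' _ : Fin (m + 1), V) → (Σ' _ : Fin (m + 1), V) → Prop := fun a b =>
    (a.1 < b.1 ∧ a.2 = b.2) ∨ (a.1 = b.1 ∧ R b.1 a.2 b.2)
  have hQ : WellFounded Q := by
    have hlex := WellFounded.psigma_lex (wellFounded_lt (α := Fin (m + 1))) hR
    refine Subrelation.wf ?_ hlex
    rintro ⟨i, y⟩ ⟨j, x⟩ (⟨h, _⟩ | ⟨h, h'⟩)
    · exact PSigma.Lex.left _ _ h
    · dsimp only at h h'
      subst h
      exact PSigma.Lex.right _ h'
  obtain ⟨K, hK⟩ := exists_kernel Q hQ {a | On μ a.1.val (L a.2)}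
  have hdisj : ∀ i j x, (⟨i, x⟩ : Σ' _ : Fin (m + 1), V) ∈ K → (⟨j, x⟩ : Σ' _ : Fin (m + 1), V) ∈ K →
      i = j := by
    intro i j x h1 h2
    by_contra hne
    rcases lt_or_gt_of_ne hne with h | h
    · exact ((hK _).1 h2).2 ⟨i, x⟩ (Or.inl ⟨h, rfl⟩) h1
    · exact ((hK _).1 h1).2 ⟨j, x⟩ (Or.inl ⟨h, rfl⟩) h2
  have hind : ∀ (i : Fin (m + 1)) x y, y ∈ P x → (⟨i, x⟩ : Σ' _ : Fin (m + 1), V) ∈ K →
      (⟨i, y⟩ : Σ' _ : Fin (m + 1), V) ∉ K := by
    intro i x y hy h1 h2
    exact ((hK _).1 h1).2 ⟨i, y⟩ (Or.inr ⟨rfl, hy, ((hK _).1 h2).1, ((hK _).1 h1).1⟩) h2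
  have hlast : ∀ x y, y ∈ P x → (∀ i : Fin (m + 1), (⟨i, x⟩ : Σ' _ : Fin (m + 1), V) ∉ K) →
      (∀ i : Fin (m + 1), (⟨i, y⟩ : Σ' _ : Fin (m + 1), V) ∉ K) → False := by
    intro x y hy hx hy'
    have hz : ∀ i : Fin (m + 1), On μ i.val (L x) → ∃ z ∈ P x, (⟨i, z⟩ : Σ' _ : Fin (m + 1), V) ∈ K := by
      intro i hi
      by_contra hcon
      push Not at hcon
      apply hx i
      rw [hK]
      refine ⟨hi, ?_⟩
      rintro ⟨j, z⟩ (⟨_, h⟩ | ⟨h, h'⟩)
      · dsimp only at h
        subst h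
        exact hx j
      · dsimp only at h h'
        subst h
        exact hcon z h'.1
    let O : Finset (Fin (m + 1)) := Finset.univ.filter (fun i => On μ i.val (L x))
    have hO : m ≤ O.card := by
      have h1 : (Finset.univ.filter (fun i : Fin (m + 1) => ¬ On μ i.val (L x))).card ≤ 1 := by
        rw [Finset.card_le_one]
        intro i hi j hj
        rw [Finset.mem_filter] at hi hj
        exact Fin.ext (off_unique μ i.val j.val (L x) hi.2 hj.2)
      have h2 := Finset.card_filter_add_card_filter_not (s := (Finset.univ : Finset (Fin (m + 1))))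
        (fun i => On μ i.val (L x))
      rw [Finset.card_univ, Fintype.card_fin] at h2
      have : O.card = (Finset.univ.filter (fun i : Fin (m + 1) => On μ i.val (L x))).card := rfl
      omega
    have : Nonempty V := ⟨x⟩
    choose! z hzP hzK using hz
    have hle : O.card ≤ ((hPf x).toFinset.erase y).card := by
      refine Finset.card_le_card_of_injOn z ?_ ?_
      · intro i hi
        have hi' := (Finset.mem_filter.1 hi).2
        rw [Finset.mem_coe, Finset.mem_erase]
        refine ⟨fun e => hy' i (e ▸ hzK i hi'), ?_⟩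
        exact (hPf x).mem_toFinset.2 (hzP i hi')
      · intro i hi j hj hij
        have hi' := (Finset.mem_filter.1 hi).2
        have hj' := (Finset.mem_filter.1 hj).2
        exact hdisj i j (z i) (hzK i hi') (hij ▸ hzK j hj')
    rw [Finset.card_erase_of_mem ((hPf x).mem_toFinset.2 hy)] at hle
    have hc := hPc x
    rw [Set.ncard_eq_toFinset_card _ (hPf x)] at hc
    have hpos : 0 < (hPf x).toFinset.card := Finset.card_pos.2 ⟨y, (hPf x).mem_toFinset.2 hy⟩
    omega
  let c : V → Fin (m + 2) := fun x =>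
    if h : ∃ i : Fin (m + 1), (⟨i, x⟩ : Σ' _ : Fin (m + 1), V) ∈ K then h.choose.castSucc else Fin.last _
  have hc : ∀ x y, y ∈ P x → c x ≠ c y := by
    intro x y hy e
    by_cases hx : ∃ i : Fin (m + 1), (⟨i, x⟩ : Σ' _ : Fin (m + 1), V) ∈ K
    · by_cases hy' : ∃ i : Fin (m + 1), (⟨i, y⟩ : Σ' _ : Fin (m + 1), V) ∈ K
      · simp only [c, dif_pos hx, dif_pos hy'] at e
        have e' := Fin.castSucc_injective _ e
        exact hind _ x y hy hx.choose_spec (e' ▸ hy'.choose_spec)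
      · simp only [c, dif_pos hx, dif_neg hy'] at e
        exact absurd e (Fin.castSucc_lt_last _).ne
    · by_cases hy' : ∃ i : Fin (m + 1), (⟨i, y⟩ : Σ' _ : Fin (m + 1), V) ∈ K
      · simp only [c, dif_neg hx, dif_pos hy'] at e
        exact absurd e (Fin.castSucc_lt_last _).ne'
      · exact hlast x y hy (fun i hi => hx ⟨i, hi⟩) (fun i hi => hy' ⟨i, hi⟩)
  refine ⟨SimpleGraph.Coloring.mk c (fun {x y} hxy => ?_)⟩
  rcases hadj x y hxy with h | h
  · exact hc x y h
  · exact (hc y x h).symm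

end Pool.Agent.J4H91.AC
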