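import Pool.Agent.J4H91.AC.Minor

/-!
Clique minors from ladders: a path `c 0, …, c J` and `t` further disjoint paths `L i 0, …, L i J`, such that
`c a` is adjacent to `L i a` for all `i` and `a`, give a minor `K_{t+2}`.
-/

set_option autoImplicit false

namespace Pool.Agent.J4H91.AC

theorem minor_of_ladder {V : Type} (G : SimpleGraph V) (t J : ℕ)
    (c : ℕ → V) (L : Fin t → ℕ → V) (hc : ∀ a, a < J → G.Adj (c a) (c (a + 1)))
    (hL : ∀ i a, a < J → G.Adj (L i a) (L i (a + 1))) (hcL : ∀ i a, a ≤ J → G.Adj (c a) (L i a))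
    (hJ1 : 1 ≤ J) (hJt : t ≤ J)
    (h0 : ∀ a b : ℕ, a ≤ J → b ≤ J → c a = c b → a = b)
    (h1 : ∀ i, ∀ a b : ℕ, a ≤ J → b ≤ J → L i a ≠ c b)
    (h2 : ∀ i j, ∀ a b : ℕ, a ≤ J → b ≤ J → L i a = L j b → i = j) :
    HasCliqueMinor G (t + 2) := by
  let B : Fin (t + 2) → Set V := fun i => {x | (∃ j : Fin t, j.val = i.val ∧
      ((∃ a : ℕ, a ≤ J ∧ x = L j a) ∨ (j.val + 1 < t ∧ x = c j.val))) ∨
    (i.val = t ∧ x = c (J - 1)) ∨ (i.val = t + 1 ∧ x = c J)}
  have hBW : ∀ (i : Fin (t + 2)) (j : Fin t) (a : ℕ), j.val = i.val → a ≤ J → L j a ∈ B i :=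
    fun i j a h h' => Or.inl ⟨j, h, Or.inl ⟨a, h', rfl⟩⟩
  have hBc : ∀ (i : Fin (t + 2)) (j : Fin t), j.val = i.val → j.val + 1 < t → c j.val ∈ B i :=
    fun i j h h' => Or.inl ⟨j, h, Or.inr ⟨h', rfl⟩⟩
  have hBt : ∀ i : Fin (t + 2), i.val = t → c (J - 1) ∈ B i := fun i h => Or.inr (Or.inl ⟨h, rfl⟩)
  have hBt' : ∀ i : Fin (t + 2), i.val = t + 1 → c J ∈ B i := fun i h => Or.inr (Or.inr ⟨h, rfl⟩)
  have hconn : ∀ i, (G.induce (B i)).Connected := by
    intro i
    by_cases hi : i.val < t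
    · let j : Fin t := ⟨i.val, hi⟩
      have hmem : ∀ a : ℕ, a ≤ J → L j a ∈ B i := fun a ha => hBW i j a rfl ha
      have hreach : ∀ a : ℕ, ∀ ha : a ≤ J, (G.induce (B i)).Reachable ⟨L j 0, hmem 0 (Nat.zero_le _)⟩
          ⟨L j a, hmem a ha⟩ := by
        intro a
        induction a with
        | zero => intro _; exact SimpleGraph.Reachable.refl _
        | succ a ih =>
          intro ha
          refine (ih (by omega)).trans (SimpleGraph.Adj.reachable ?_)
          show G.Adj (L j a) (L j (a + 1))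
          exact hL _ _ (by omega)
      refine connected_of_root G (B i) ⟨L j 0, hmem 0 (Nat.zero_le _)⟩ ?_
      rintro ⟨x, hx⟩
      have hx' := hx
      rcases hx' with ⟨l, hl, ⟨a, ha, hxa⟩ | ⟨hl', hxl⟩⟩ | ⟨h, _⟩ | ⟨h, _⟩
      · have : l = j := Fin.ext hl
        subst this
        subst hxa
        exact hreach a ha
      · have hlj : l = j := Fin.ext hl
        rw [hlj] at hl' hxl
        subst hxl
        refine (hreach j.val (by omega)).trans (SimpleGraph.Adj.reachable ?_)
        show G.Adj (L j j.val) (c j.val)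
        exact (hcL _ _ (by omega)).symm
      · omega
      · omega
    · have hsub : ∀ x ∈ B i, ∀ y ∈ B i, x = y := by
        rintro x (⟨l, hl, _⟩ | ⟨h, hx⟩ | ⟨h, hx⟩) y (⟨l', hl', _⟩ | ⟨h', hy⟩ | ⟨h', hy⟩)
        · exact absurd l.isLt (by omega)
        · exact absurd l.isLt (by omega)
        · exact absurd l.isLt (by omega)
        · exact absurd l'.isLt (by omega)
        · rw [hx, hy]
        · omega
        · exact absurd l'.isLt (by omega)
        · omega
        · rw [hx, hy]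
      have hne : (B i).Nonempty := by
        by_cases h : i.val = t
        · exact ⟨_, hBt i h⟩
        · exact ⟨_, hBt' i (by omega)⟩
      obtain ⟨z, hz⟩ := hne
      refine connected_of_root G (B i) ⟨z, hz⟩ ?_
      rintro ⟨x, hx⟩
      have : x = z := hsub x hx z hz
      subst this
      exact SimpleGraph.Reachable.refl _
  refine ⟨B, hconn, ?_, ?_⟩
  · intro i j hij
    have hv : i.val ≠ j.val := fun e => hij (Fin.ext e)
    rw [Set.disjoint_left]
    rintro x (⟨l, hl, ⟨a, ha, hx⟩ | ⟨hl1, hx⟩⟩ | ⟨h, hx⟩ | ⟨h, hx⟩)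
      (⟨l', hl', ⟨b, hb, hy⟩ | ⟨hl1', hy⟩⟩ | ⟨h', hy⟩ | ⟨h', hy⟩) <;> rw [hx] at hy
    · have := h2 l l' a b ha hb hy
      rw [this] at hl; omega
    · exact h1 l a _ ha (by omega) hy
    · exact h1 l a _ ha (by omega) hy
    · exact h1 l a _ ha (by omega) hy
    · exact h1 l' b _ hb (by omega) hy.symm
    · have := h0 _ _ (by omega) (by omega) hy; omega
    · have := h0 _ _ (by omega) (by omega) hy; omega
    · have := h0 _ _ (by omega) (by omega) hy; omega
    · exact h1 l' b _ hb (by omega) hy.symm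
    · have := h0 _ _ (by omega) (by omega) hy; omega
    · omega
    · have := h0 _ _ (by omega) (by omega) hy; omega
    · exact h1 l' b _ hb (by omega) hy.symm
    · have := h0 _ _ (by omega) (by omega) hy; omega
    · have := h0 _ _ (by omega) (by omega) hy; omega
    · omega
  · have key : ∀ i j : Fin (t + 2), i.val < j.val → ∃ u ∈ B i, ∃ v ∈ B j, G.Adj u v := by
      intro i j hij
      have hj2 := j.isLt
      by_cases hj : j.val < t
      · exact ⟨c i.val, hBc i ⟨i.val, by omega⟩ rfl (by simp only; omega),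
          L ⟨j.val, hj⟩ i.val, hBW j ⟨j.val, hj⟩ _ rfl (by omega), hcL _ _ (by omega)⟩
      · by_cases hjt : j.val = t
        · exact ⟨L ⟨i.val, by omega⟩ (J - 1), hBW i ⟨i.val, by omega⟩ _ rfl (by omega),
            c (J - 1), hBt j hjt, (hcL _ _ (by omega)).symm⟩
        · by_cases hi : i.val < t
          · exact ⟨L ⟨i.val, by omega⟩ J, hBW i ⟨i.val, by omega⟩ _ rfl le_rfl,
              c J, hBt' j (by omega), (hcL _ _ le_rfl).symm⟩
          · refine ⟨c (J - 1), hBt i (by omega), c J, hBt' j (by omega), ?_⟩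
            have := hc (J - 1) (by omega)
            rwa [Nat.sub_add_cancel hJ1] at this
    intro i j hij
    have hv : i.val ≠ j.val := fun e => hij (Fin.ext e)
    rcases lt_or_gt_of_ne hv with h | h
    · exact key i j h
    · obtain ⟨u, hu, v, hv, huv⟩ := key j i h
      exact ⟨v, hv, u, hu, huv.symm⟩

end Pool.Agent.J4H91.AC
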