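import Pool.Agent.J4H91.AC.Ladder

/-!
Cayley graphs of abelian groups with jumps of infinite order, and integer distance graphs.
-/

set_option autoImplicit false

namespace Pool.Agent.J4H91.AC

open SimpleGraph

/-- Greedy colouring of finite sets of vertices: every vertex has at most `m` neighbours that are not
larger. -/
lemma greedy_finset {V : Type} (F : SimpleGraph V) (φ : V → ℚ) (m : ℕ) (P : V → Finset V)
    (hP : ∀ x, (P x).card ≤ m) (h : ∀ x y, F.Adj x y → φ y ≤ φ x → y ∈ P x) (X : Finset V) :
    ∃ f : V → Fin (m + 1), ∀ x ∈ X, ∀ y ∈ X, F.Adj x y → f x ≠ f y := by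
  classical
  induction X using Finset.strongInduction with
  | H X ih =>
    rcases X.eq_empty_or_nonempty with rfl | hne
    · exact ⟨fun _ => 0, by simp⟩
    · obtain ⟨x, hx, hmax⟩ := X.exists_max_image φ hne
      obtain ⟨f, hf⟩ := ih (X.erase x) (Finset.erase_ssubset hx)
      obtain ⟨c, _, hc⟩ := Finset.exists_mem_notMem_of_card_lt_card
        (s := (P x).image f) (t := (Finset.univ : Finset (Fin (m + 1)))) (by
          rw [Finset.card_univ, Fintype.card_fin]
          exact lt_of_le_of_lt Finset.card_image_le (Nat.lt_succ_of_le (hP x)))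
      have hc' : ∀ y ∈ X, F.Adj x y → f y ≠ c := fun y hy hxy e =>
        hc (Finset.mem_image.2 ⟨y, h x y hxy (hmax y hy), e⟩)
      refine ⟨Function.update f x c, fun u hu v hv huv => ?_⟩
      by_cases hux : u = x
      · subst hux
        have hvu : v ≠ u := fun e => F.loopless.irrefl _ (e ▸ huv)
        rw [Function.update_self, Function.update_of_ne hvu]
        exact (hc' v hv huv).symm
      · by_cases hvx : v = x
        · subst hvx
          rw [Function.update_self, Function.update_of_ne hux]
          exact hc' u hu huv.symm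
        · rw [Function.update_of_ne hux, Function.update_of_ne hvx]
          exact hf u (Finset.mem_erase.2 ⟨hux, hu⟩) v (Finset.mem_erase.2 ⟨hvx, hv⟩) huv

/-- De Bruijn and Erdős. -/
lemma colorable_of_finset {V : Type} (F : SimpleGraph V) (k : ℕ)
    (h : ∀ X : Finset V, ∃ f : V → Fin k, ∀ x ∈ X, ∀ y ∈ X, F.Adj x y → f x ≠ f y) :
    F.Colorable k := by
  classical
  have := nonempty_hom_of_forall_finite_subgraph_hom (G := F) (F := (⊤ : SimpleGraph (Fin k)))
    (fun G' hG' => by
      have hex := h hG'.toFinset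
      exact ⟨fun v => hex.choose v.1, fun {u v} huv => by
        show hex.choose u.1 ≠ hex.choose v.1
        exact hex.choose_spec u.1 (by simpa using u.2) v.1 (by simpa using v.2)
          (G'.adj_sub (by simpa using huv))⟩)
  exact this

variable {Γ : Type} [AddCommGroup Γ]

/-- The ladder in the Cayley graph. -/
theorem minor_linear (φ : Γ →+ ℚ) (D : Finset Γ) (s : Γ) (hs : s ∈ D)
    (hD : ∀ d ∈ D, 0 < φ d ∧ φ d ≤ φ s) (X : Set Γ)
    (hX0 : ∀ a : ℕ, a ≤ max (D.card - 1) 1 → a • s ∈ X)
    (hX1 : ∀ d ∈ D, d ≠ s → ∀ a : ℕ, a ≤ max (D.card - 1) 1 → d + a • s ∈ X) :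
    HasCliqueMinor ((circulantGraph (D : Set Γ)).induce X) (D.card + 1) := by
  classical
  have hs0 := (hD s hs).1
  have hDpos : 0 < D.card := Finset.card_pos.2 ⟨s, hs⟩
  set J := max (D.card - 1) 1 with hJ
  have hJle : J ≤ D.card := by omega
  let W : Fin (D.card - 1) → Γ := fun i =>
    ((D.erase s).equivFin.symm (Fin.cast (Finset.card_erase_of_mem hs).symm i)).1
  have hW : ∀ i, W i ∈ D.erase s := fun i =>
    ((D.erase s).equivFin.symm (Fin.cast (Finset.card_erase_of_mem hs).symm i)).2
  have hWinj : Function.Injective W := by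
    intro i j hij
    exact Fin.cast_injective _ ((D.erase s).equivFin.symm.injective (Subtype.ext hij))
  have hcX : ∀ a : ℕ, a ≤ J → a • s ∈ X := hX0
  have hLX : ∀ (i : Fin (D.card - 1)) (a : ℕ), a ≤ J → W i + a • s ∈ X := fun i a ha =>
    hX1 (W i) (Finset.mem_of_mem_erase (hW i)) (Finset.ne_of_mem_erase (hW i)) a ha
  have hX00 : (0 : Γ) ∈ X := by
    have := hcX 0 (Nat.zero_le _)
    rwa [zero_nsmul] at this
  let c : ℕ → X := fun a => if h : a ≤ J then ⟨a • s, hcX a h⟩ else ⟨0, hX00⟩
  let L : Fin (D.card - 1) → ℕ → X := fun i a =>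
    if h : a ≤ J then ⟨W i + a • s, hLX i a h⟩ else ⟨0, hX00⟩
  have hcv : ∀ a, a ≤ J → (c a).1 = a • s := by
    intro a ha
    simp only [c, dif_pos ha]
  have hLv : ∀ i a, a ≤ J → (L i a).1 = W i + a • s := by
    intro i a ha
    simp only [L, dif_pos ha]
  have hadj : ∀ x d : Γ, d ∈ D → (circulantGraph (D : Set Γ)).Adj x (x + d) := by
    intro x d hd
    rw [circulantGraph_adj]
    refine ⟨fun e => ?_, Or.inr ?_⟩
    · have : d = 0 := by simpa using e.symm
      have h1 := (hD d hd).1
      rw [this, map_zero] at h1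
      exact lt_irrefl _ h1
    · rw [add_sub_cancel_left]; exact hd
  have hphi : ∀ (a b : ℕ), ((a : ℚ) - b) * φ s = φ (a • s) - φ (b • s) := by
    intro a b
    rw [map_nsmul, map_nsmul, nsmul_eq_mul, nsmul_eq_mul]
    ring
  -- a multiple of `φ s` in the interval `(-φ s, φ s)`
  have hmul : ∀ a b : ℕ, -φ s < ((a : ℚ) - b) * φ s → ((a : ℚ) - b) * φ s < φ s → a = b := by
    intro a b h1 h2
    have h3 : (a : ℚ) - b < 1 := by
      by_contra hcon
      push Not at hcon
      nlinarith
    have h4 : -1 < (a : ℚ) - b := by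
      by_contra hcon
      push Not at hcon
      nlinarith
    have h5 : (a : ℚ) < b + 1 := by linarith
    have h6 : (b : ℚ) < a + 1 := by linarith
    have h7 : a < b + 1 := by exact_mod_cast h5
    have h8 : b < a + 1 := by exact_mod_cast h6
    omega
  have hmain := minor_of_ladder ((circulantGraph (D : Set Γ)).induce X) (D.card - 1) J c L ?_ ?_ ?_
    (by omega) (by omega) ?_ ?_ ?_
  · rwa [show D.card - 1 + 2 = D.card + 1 by omega] at hmain
  · intro a ha
    show (circulantGraph (D : Set Γ)).Adj (c a).1 (c (a + 1)).1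
    rw [hcv a (by omega), hcv (a + 1) (by omega), succ_nsmul]
    exact hadj _ _ hs
  · intro i a ha
    show (circulantGraph (D : Set Γ)).Adj (L i a).1 (L i (a + 1)).1
    rw [hLv i a (by omega), hLv i (a + 1) (by omega), succ_nsmul, ← add_assoc]
    exact hadj _ _ hs
  · intro i a ha
    show (circulantGraph (D : Set Γ)).Adj (c a).1 (L i a).1
    rw [hcv a ha, hLv i a ha, add_comm (W i)]
    exact hadj _ _ (Finset.mem_of_mem_erase (hW i))
  · intro a b ha hb h
    have h1 := congrArg Subtype.val h
    rw [hcv a ha, hcv b hb] at h1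
    have h2 := hphi a b
    rw [h1, sub_self] at h2
    exact hmul a b (by rw [h2]; linarith) (by rw [h2]; exact hs0)
  · intro i a b ha hb h
    have h1 := congrArg Subtype.val h
    rw [hLv i a ha, hcv b hb] at h1
    have h2 := hphi b a
    rw [← h1, map_add, add_sub_cancel_right] at h2
    have h3 := hD _ (Finset.mem_of_mem_erase (hW i))
    -- `b = a + 1`
    have h4 := hphi b (a + 1)
    rw [← h1, map_add, succ_nsmul, map_add] at h4
    have h5 : b = a + 1 := by
      refine hmul b (a + 1) ?_ ?_
      · rw [h4]; linarith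
      · rw [h4]; linarith
    rw [h5, succ_nsmul, add_comm (a • s)] at h1
    exact (Finset.mem_erase.1 (hW i)).1 (add_right_cancel h1)
  · intro i j a b ha hb h
    have h1 := congrArg Subtype.val h
    rw [hLv i a ha, hLv j b hb] at h1
    have h2 := congrArg φ h1
    rw [map_add, map_add] at h2
    have h3 := hphi b a
    have h4 := hD _ (Finset.mem_of_mem_erase (hW i))
    have h5 := hD _ (Finset.mem_of_mem_erase (hW j))
    have h6 : b = a := hmul b a (by rw [h3]; linarith) (by rw [h3]; linarith)
    rw [h6] at h1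
    exact hWinj (add_right_cancel h1)

/-- A homomorphism to `ℚ` that does not vanish on a finite set of elements of infinite order. -/
lemma exists_hom (S : Finset Γ) (hS : ∀ s ∈ S, addOrderOf s = 0) :
    ∃ φ : Γ →+ ℚ, ∀ s ∈ S, φ s ≠ 0 := by
  classical
  obtain ⟨f, hf⟩ := Module.exists_dual_forall_apply_ne_zero (K := ℚ) (M := DivisibleHull Γ)
    (fun s : S => DivisibleHull.coeAddMonoidHom Γ s.1) (by
      rintro ⟨s, hs⟩ h0
      have h1 : DivisibleHull.mk s 1 = DivisibleHull.mk (0 : Γ) 1 := by
        rw [DivisibleHull.mk_zero]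
        exact h0
      rw [DivisibleHull.mk_eq_mk] at h1
      obtain ⟨u, hu⟩ := h1
      simp only [PNat.val_ofNat, one_smul, smul_zero] at hu
      have h2 := addOrderOf_dvd_of_nsmul_eq_zero hu
      rw [hS s hs] at h2
      have := u.pos
      have h3 := Nat.eq_zero_of_zero_dvd h2
      omega)
  exact ⟨f.toAddMonoidHom.comp (DivisibleHull.coeAddMonoidHom Γ), fun s hs => hf ⟨s, hs⟩⟩

end Pool.Agent.J4H91.AC
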