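import Pool.Agent.J4H91.AC.Linear

/-!
Hadwiger's conjecture for Cayley graphs of abelian groups with jumps of infinite order, for large induced
subgraphs of them, and for long Toeplitz graphs.
-/

set_option autoImplicit false

namespace Pool.Agent.J4H91.AC

open SimpleGraph

lemma HasCliqueMinor.map {V V' : Type} {F : SimpleGraph V} {F' : SimpleGraph V'} (f : V → V')
    (hf : Function.Injective f) (hadj : ∀ x y, F.Adj x y → F'.Adj (f x) (f y)) {m : ℕ}
    (h : HasCliqueMinor F m) : HasCliqueMinor F' m := by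
  obtain ⟨B, h1, h2, h3⟩ := h
  refine ⟨fun i => f '' (B i), fun i => ?_, fun i j hij => ?_, fun i j hij => ?_⟩
  · let g : F.induce (B i) →g F'.induce (f '' (B i)) :=
      ⟨fun x => ⟨f x.1, x.1, x.2, rfl⟩, fun {x y} hxy => hadj _ _ hxy⟩
    refine (h1 i).map g ?_
    rintro ⟨y, x, hx, rfl⟩
    exact ⟨⟨x, hx⟩, rfl⟩
  · exact Set.disjoint_image_of_injective hf (h2 i j hij)
  · obtain ⟨u, hu, v, hv, huv⟩ := h3 i j hij
    exact ⟨f u, ⟨u, hu, rfl⟩, f v, ⟨v, hv, rfl⟩, hadj _ _ huv⟩

lemma minor_one {V : Type} (F : SimpleGraph V) (v : V) : HasCliqueMinor F 1 := by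
  refine ⟨fun _ => {v}, fun i => ?_, fun i j hij => ?_, fun i j hij => ?_⟩
  · refine connected_of_root _ _ ⟨v, rfl⟩ ?_
    rintro ⟨x, hx⟩
    have : x = v := hx
    subst this
    exact SimpleGraph.Reachable.refl _
  · exact absurd (Fin.ext (by omega)) hij
  · exact absurd (Fin.ext (by omega)) hij

variable {Γ : Type} [AddCommGroup Γ]

lemma linear_adj (φ : Γ →+ ℚ) (D : Finset Γ) (hD : ∀ d ∈ D, 0 < φ d) (x y : Γ)
    (h : (circulantGraph (D : Set Γ)).Adj x y) (hxy : φ y ≤ φ x) [DecidableEq Γ] :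
    y ∈ D.image (fun d => x - d) := by
  rw [circulantGraph_adj] at h
  rw [Finset.mem_image]
  rcases h.2 with h' | h'
  · exact ⟨x - y, h', by abel⟩
  · have := hD _ h'
    rw [map_sub] at this
    linarith

lemma linear_colorable (φ : Γ →+ ℚ) (D : Finset Γ) (hD : ∀ d ∈ D, 0 < φ d) :
    (circulantGraph (D : Set Γ)).Colorable (D.card + 1) := by
  classical
  refine colorable_of_finset _ _ (fun X => ?_)
  exact greedy_finset _ φ D.card (fun x => D.image (fun d => x - d)) (fun x => Finset.card_image_le)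
    (fun x y h hxy => linear_adj φ D hD x y h hxy) X

/-- Arbitrary sets of jumps of infinite order. -/
theorem hadwiger_infinite (S : Set Γ) (hS : ∀ s ∈ S, s ≠ 0 → addOrderOf s = 0) (k : ℕ)
    (hk : ¬ (circulantGraph S).Colorable k) : HasCliqueMinor (circulantGraph S) (k + 1) := by
  classical
  rcases Nat.eq_zero_or_pos k with rfl | hkpos
  · exact minor_one _ 0
  have hex : ∃ X : Finset Γ, ¬ ∃ f : Γ → Fin k, ∀ x ∈ X, ∀ y ∈ X,
      (circulantGraph S).Adj x y → f x ≠ f y := by
    by_contra hcon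
    push Not at hcon
    exact hk (colorable_of_finset _ _ hcon)
  obtain ⟨X, hX⟩ := hex
  let SX : Finset Γ := ((X ×ˢ X).image (fun p => p.1 - p.2)).filter
    (fun d => d ≠ 0 ∧ (d ∈ S ∨ -d ∈ S))
  have hSX : ∀ d ∈ SX, addOrderOf d = 0 := by
    intro d hd
    obtain ⟨_, hd0, hd⟩ := Finset.mem_filter.1 hd
    rcases hd with h | h
    · exact hS d h hd0
    · have := hS _ h (neg_ne_zero.2 hd0)
      rwa [addOrderOf_neg] at this
  obtain ⟨φ, hφ⟩ := exists_hom SX hSX
  let D : Finset Γ := SX.filter (fun d => 0 < φ d)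
  have hD : ∀ d ∈ D, 0 < φ d := fun d hd => (Finset.mem_filter.1 hd).2
  have hDS : ∀ x y, (circulantGraph (D : Set Γ)).Adj x y → (circulantGraph S).Adj x y := by
    intro x y h
    rw [circulantGraph_adj] at h ⊢
    refine ⟨h.1, ?_⟩
    rcases h.2 with h' | h'
    · have := (Finset.mem_filter.1 (Finset.mem_filter.1 h').1).2.2
      rwa [neg_sub] at this
    · have := (Finset.mem_filter.1 (Finset.mem_filter.1 h').1).2.2
      rw [neg_sub] at this
      exact this.symm
  have hSD : ∀ x ∈ X, ∀ y ∈ X, (circulantGraph S).Adj x y → (circulantGraph (D : Set Γ)).Adj x y := by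
    intro x hx y hy h
    rw [circulantGraph_adj] at h ⊢
    refine ⟨h.1, ?_⟩
    have h1 : x - y ∈ SX := by
      refine Finset.mem_filter.2 ⟨Finset.mem_image.2 ⟨(x, y), Finset.mem_product.2 ⟨hx, hy⟩, rfl⟩,
        sub_ne_zero.2 h.1, ?_⟩
      rw [neg_sub]
      exact h.2
    have h2 : y - x ∈ SX := by
      refine Finset.mem_filter.2 ⟨Finset.mem_image.2 ⟨(y, x), Finset.mem_product.2 ⟨hy, hx⟩, rfl⟩,
        sub_ne_zero.2 (Ne.symm h.1), ?_⟩
      rw [neg_sub]
      exact h.2.symm
    rcases lt_or_gt_of_ne (hφ _ h1) with h3 | h3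
    · right
      refine Finset.mem_filter.2 ⟨h2, ?_⟩
      rw [← neg_sub, map_neg]
      linarith
    · left
      exact Finset.mem_filter.2 ⟨h1, h3⟩
  by_cases hm : D.card + 1 ≤ k
  · exfalso
    obtain ⟨f, hf⟩ := greedy_finset (circulantGraph (D : Set Γ)) φ D.card
      (fun x => D.image (fun d => x - d)) (fun x => Finset.card_image_le)
      (fun x y h hxy => linear_adj φ D hD x y h hxy) X
    exact hX ⟨fun x => Fin.castLE hm (f x), fun x hx y hy h e =>
      hf x hx y hy (hSD x hx y hy h) (Fin.castLE_injective hm e)⟩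
  · have hDne : D.Nonempty := Finset.card_pos.1 (by omega)
    obtain ⟨s, hs, hmax⟩ := D.exists_max_image φ hDne
    have h1 := minor_linear φ D s hs (fun d hd => ⟨hD d hd, hmax d hd⟩) Set.univ
      (fun _ _ => Set.mem_univ _) (fun _ _ _ _ _ => Set.mem_univ _)
    have h2 : HasCliqueMinor (circulantGraph S) (D.card + 1) :=
      h1.map Subtype.val Subtype.val_injective (fun x y h => hDS _ _ h)
    exact h2.mono (by omega)

/-- Finite sets of jumps: positive part. -/
lemma positive_part (S : Set Γ) (hfin : S.Finite) (hS : ∀ s ∈ S, s ≠ 0 → addOrderOf s = 0) :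
    ∃ (φ : Γ →+ ℚ) (D : Finset Γ), (∀ d ∈ D, 0 < φ d) ∧
      circulantGraph S = circulantGraph (D : Set Γ) := by
  classical
  let S' : Finset Γ := (hfin.toFinset ∪ hfin.toFinset.image (fun x => -x)).filter (fun d => d ≠ 0)
  have hmem : ∀ x, x ∈ S' ↔ (x ∈ S ∨ -x ∈ S) ∧ x ≠ 0 := by
    intro x
    rw [Finset.mem_filter, Finset.mem_union, Finset.mem_image, Set.Finite.mem_toFinset]
    refine and_congr_left (fun _ => or_congr_right ?_)
    constructor
    · rintro ⟨y, hy, rfl⟩
      rw [neg_neg]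
      exact (Set.Finite.mem_toFinset _).1 hy
    · intro h
      exact ⟨-x, (Set.Finite.mem_toFinset _).2 h, neg_neg x⟩
  obtain ⟨φ, hφ⟩ := exists_hom S' (by
    intro d hd
    obtain ⟨hd, hd0⟩ := (hmem d).1 hd
    rcases hd with h | h
    · exact hS d h hd0
    · have := hS _ h (neg_ne_zero.2 hd0)
      rwa [addOrderOf_neg] at this)
  refine ⟨φ, S'.filter (fun d => 0 < φ d), fun d hd => (Finset.mem_filter.1 hd).2, ?_⟩
  ext x y
  rw [circulantGraph_adj, circulantGraph_adj]
  refine and_congr_right (fun hxy => ?_)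
  constructor
  · intro h
    have h1 : x - y ∈ S' := (hmem _).2 ⟨by rw [neg_sub]; exact h, sub_ne_zero.2 hxy⟩
    have h2 : y - x ∈ S' := (hmem _).2 ⟨by rw [neg_sub]; exact h.symm, sub_ne_zero.2 (Ne.symm hxy)⟩
    rcases lt_or_gt_of_ne (hφ _ h1) with h3 | h3
    · right
      refine Finset.mem_coe.2 (Finset.mem_filter.2 ⟨h2, ?_⟩)
      rw [← neg_sub, map_neg]
      linarith
    · left
      exact Finset.mem_coe.2 (Finset.mem_filter.2 ⟨h1, h3⟩)
  · rintro (h | h)
    · have := ((hmem _).1 (Finset.mem_filter.1 (Finset.mem_coe.1 h)).1).1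
      rwa [neg_sub] at this
    · have := ((hmem _).1 (Finset.mem_filter.1 (Finset.mem_coe.1 h)).1).1
      rw [neg_sub] at this
      exact this.symm

/-- Large induced subgraphs. -/
theorem hadwiger_induced (S : Set Γ) (hfin : S.Finite) (hS : ∀ s ∈ S, s ≠ 0 → addOrderOf s = 0) :
    ∃ Y : Finset Γ, ∀ (g : Γ) (X : Set Γ), (∀ y ∈ Y, g + y ∈ X) → ∀ k : ℕ,
      ¬ ((circulantGraph S).induce X).Colorable k → HasCliqueMinor ((circulantGraph S).induce X) (k + 1) := by
  classical
  obtain ⟨φ, D, hD, hG⟩ := positive_part S hfin hS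
  rw [hG]
  have hcol : ∀ X : Set Γ, ((circulantGraph (D : Set Γ)).induce X).Colorable (D.card + 1) := fun X =>
    (linear_colorable φ D hD).of_hom (SimpleGraph.Embedding.induce X).toHom
  rcases D.eq_empty_or_nonempty with hDe | hDne
  · refine ⟨{0}, fun g X hX k hk => ?_⟩
    have hg : g + 0 ∈ X := hX 0 (Finset.mem_singleton_self 0)
    have hk0 : k = 0 := by
      by_contra hne
      have := hcol X
      rw [hDe, Finset.card_empty] at this
      rw [hDe] at hk
      exact hk (this.mono (by omega))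
    subst hk0
    exact minor_one _ ⟨g + 0, hg⟩
  · obtain ⟨s, hs, hmax⟩ := D.exists_max_image φ hDne
    refine ⟨((insert (0 : Γ) D) ×ˢ (Finset.range (D.card + 1))).image (fun p => p.1 + p.2 • s),
      fun g X hX k hk => ?_⟩
    have hDpos : 0 < D.card := Finset.card_pos.2 hDne
    have h1 := minor_linear φ D s hs (fun d hd => ⟨hD d hd, hmax d hd⟩) {x | g + x ∈ X}
      (fun a ha => hX _ (Finset.mem_image.2 ⟨(0, a), Finset.mem_product.2
        ⟨Finset.mem_insert_self _ _, Finset.mem_range.2 (by omega)⟩, zero_add _⟩))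
      (fun d hd _ a ha => hX _ (Finset.mem_image.2 ⟨(d, a), Finset.mem_product.2
        ⟨Finset.mem_insert_of_mem hd, Finset.mem_range.2 (by omega)⟩, rfl⟩))
    have h2 : HasCliqueMinor ((circulantGraph (D : Set Γ)).induce X) (D.card + 1) := by
      refine h1.map (fun x => (⟨g + x.1, x.2⟩ : X)) ?_ ?_
      · intro x y hxy
        exact Subtype.ext (add_left_cancel (congrArg Subtype.val hxy))
      · intro x y hxy
        show (circulantGraph (D : Set Γ)).Adj (g + x.1) (g + y.1)
        have hxy' : (circulantGraph (D : Set Γ)).Adj x.1 y.1 := hxy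
        rw [circulantGraph_adj] at hxy' ⊢
        rw [add_sub_add_left_eq_sub, add_sub_add_left_eq_sub]
        exact ⟨fun e => hxy'.1 (add_left_cancel e), hxy'.2⟩
    refine h2.mono ?_
    by_contra hlt
    exact hk ((hcol X).mono (by omega))

/-- Toeplitz graph: the vertices are `0, …, n - 1`, and `i ≠ j` are adjacent if their distance is in
`D`. -/
def toeplitz (D : Finset ℕ) (n : ℕ) : SimpleGraph (Fin n) :=
  SimpleGraph.fromRel (fun i j => j.val - i.val ∈ D)

theorem toeplitz_main (D : Finset ℕ) (N n : ℕ) (hN : N ∈ D) (hD : ∀ d ∈ D, 1 ≤ d ∧ d ≤ N)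
    (hn : D.card * N < n) :
    (toeplitz D n).Colorable (D.card + 1) ∧ HasCliqueMinor (toeplitz D n) (D.card + 1) := by
  classical
  let φ : ℤ →+ ℚ := Int.castAddHom ℚ
  let D' : Finset ℤ := D.image (fun d : ℕ => (d : ℤ))
  have hD'c : D'.card = D.card := Finset.card_image_of_injective _ Nat.cast_injective
  have hD' : ∀ d ∈ D', 0 < φ d ∧ φ d ≤ φ (N : ℤ) := by
    intro d hd
    obtain ⟨e, he, rfl⟩ := Finset.mem_image.1 hd
    have := hD e he
    show 0 < (((e : ℤ)) : ℚ) ∧ (((e : ℤ)) : ℚ) ≤ (((N : ℤ)) : ℚ)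
    constructor
    · have : (0 : ℤ) < e := by omega
      exact_mod_cast this
    · have : (e : ℤ) ≤ N := by omega
      exact_mod_cast this
  have hadj : ∀ i j : Fin n, (toeplitz D n).Adj i j ↔
      (circulantGraph (D' : Set ℤ)).Adj (i.val : ℤ) (j.val : ℤ) := by
    intro i j
    rw [circulantGraph_adj]
    show (i ≠ j ∧ (j.val - i.val ∈ D ∨ i.val - j.val ∈ D)) ↔ _
    have hD0 : 0 ∉ D := fun h => by have := (hD 0 h).1; omega
    have key : ∀ a b : ℕ, (b - a ∈ D) ↔ ((b : ℤ) - a ∈ (D' : Set ℤ)) := by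
      intro a b
      constructor
      · intro h
        refine Finset.mem_coe.2 (Finset.mem_image.2 ⟨b - a, h, ?_⟩)
        have : a ≤ b := by
          by_contra hlt
          exact hD0 (by rwa [Nat.sub_eq_zero_of_le (by omega)] at h)
        omega
      · intro h
        obtain ⟨e, he, hea⟩ := Finset.mem_image.1 (Finset.mem_coe.1 h)
        have : b - a = e := by omega
        rw [this]; exact he
    rw [key, key]
    constructor
    · rintro ⟨h1, h2⟩
      exact ⟨fun e => h1 (Fin.ext (by omega)), h2.symm⟩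
    · rintro ⟨h1, h2⟩
      exact ⟨fun e => h1 (by rw [e]), h2.symm⟩
  constructor
  · have h1 := linear_colorable φ D' (fun d hd => (hD' d hd).1)
    rw [hD'c] at h1
    exact h1.of_hom (⟨fun i => (i.val : ℤ), fun {i j} h => (hadj i j).1 h⟩ :
      toeplitz D n →g circulantGraph (D' : Set ℤ))
  · have hN1 := (hD N hN).1
    have hc : 1 ≤ D.card := Finset.card_pos.2 ⟨N, hN⟩
    -- the vertices that are used
    let X : Set ℤ := {x | 0 ≤ x ∧ x < n}
    have hmulZ : ∀ a : ℕ, a ≤ max (D'.card - 1) 1 → (a : ℤ) * N ≤ (D.card : ℤ) * N ∧ 0 ≤ (a : ℤ) * N := by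
      intro a ha
      rw [hD'c] at ha
      exact ⟨mul_le_mul_of_nonneg_right (by omega) (by omega), mul_nonneg (by omega) (by omega)⟩
    have hnZ : (D.card : ℤ) * N < n := by exact_mod_cast hn
    have h1 := minor_linear φ D' (N : ℤ) (Finset.mem_image.2 ⟨N, hN, rfl⟩) hD' X
      (by
        intro a ha
        obtain ⟨h2, h3⟩ := hmulZ a ha
        show 0 ≤ a • (N : ℤ) ∧ a • (N : ℤ) < n
        rw [nsmul_eq_mul]
        omega)
      (by
        intro d hd hdN a ha
        obtain ⟨e, he, rfl⟩ := Finset.mem_image.1 hd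
        have h4 := hD e he
        have h5 : e ≠ N := fun h => hdN (by rw [h])
        have h6 : 2 ≤ D.card := by
          have : ({e, N} : Finset ℕ) ⊆ D := by
            intro x hx
            rcases Finset.mem_insert.1 hx with h | h
            · rw [h]; exact he
            · rw [Finset.mem_singleton.1 h]; exact hN
          have h7 := Finset.card_le_card this
          rwa [Finset.card_pair h5] at h7
        rw [hD'c] at ha
        have h8 : ((a : ℤ) + 1) * N ≤ (D.card : ℤ) * N :=
          mul_le_mul_of_nonneg_right (by omega) (by omega)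
        have h9 : 0 ≤ (a : ℤ) * N := mul_nonneg (by omega) (by omega)
        have h10 : ((a : ℤ) + 1) * N = a * N + N := by ring
        show 0 ≤ (e : ℤ) + a • (N : ℤ) ∧ (e : ℤ) + a • (N : ℤ) < n
        rw [nsmul_eq_mul]
        omega)
    rw [hD'c] at h1
    refine h1.map (fun x => (⟨x.1.toNat, by have h1 : 0 ≤ x.1 := x.2.1; have h2 : x.1 < n := x.2.2; omega⟩ : Fin n)) ?_ ?_
    · rintro ⟨x, hx⟩ ⟨y, hy⟩ hxy
      have h2 := congrArg Fin.val hxy
      have hx0 : 0 ≤ x := hx.1
      have hy0 : 0 ≤ y := hy.1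
      exact Subtype.ext (by
        show x = y
        have h3 : x.toNat = y.toNat := h2
        omega)
    · rintro ⟨x, hx⟩ ⟨y, hy⟩ hxy
      have hx0 : 0 ≤ x := hx.1
      have hy0 : 0 ≤ y := hy.1
      rw [hadj]
      have h3 : (circulantGraph (D' : Set ℤ)).Adj x y := hxy
      show (circulantGraph (D' : Set ℤ)).Adj ((x.toNat : ℕ) : ℤ) ((y.toNat : ℕ) : ℤ)
      rw [Int.toNat_of_nonneg hx0, Int.toNat_of_nonneg hy0]
      exact h3

end Pool.Agent.J4H91.AC
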